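import Pool.Agent.Q50.LR.Defs

/-!
# The periods of 1-motives attached to an elliptic curve: block matrices

The indices are: `r` indices for the lattice part, two for the elliptic curve, `s` for the nontrivial
extensions of the elliptic curve by the multiplicative group and `t` for the trivial extensions.
-/

open Matrix

namespace Pool.Agent.Q50.EM

/-- The indices. -/
abbrev Ix (r s t : ℕ) : Type := Fin r ⊕ (Fin 2 ⊕ (Fin s ⊕ Fin t))

variable {F : Type} [Field F] {r s t : ℕ}

/-- The block matrix with the rows `(e, X, Y)`, `(0, g, (Z, 0))`, `(0, 0, d)`. -/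
def block (e : Matrix (Fin r) (Fin r) F) (g : Matrix (Fin 2) (Fin 2) F)
    (X : Matrix (Fin r) (Fin 2) F) (Y : Matrix (Fin r) (Fin s ⊕ Fin t) F)
    (Z : Matrix (Fin 2) (Fin s) F) (d : F) : Matrix (Ix r s t) (Ix r s t) F :=
  fromBlocks e (fromCols X Y) 0 (fromBlocks g (fromCols Z 0) 0 (d • 1))

/-- The Lie algebra of the matrices with the rows `(0, X, Y)`, `(0, g, (Z, 0))`, `(0, 0, tr g)`. -/
def lieP (F : Type) [Field F] (r s t : ℕ) : Submodule F (Matrix (Ix r s t) (Ix r s t) F) where
  carrier := {M | ∃ g X Y Z, M = block 0 g X Y Z g.trace}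
  zero_mem' := ⟨0, 0, 0, 0, by simp [block, fromCols_zero]⟩
  add_mem' := by
    rintro _ _ ⟨g, X, Y, Z, rfl⟩ ⟨g', X', Y', Z', rfl⟩
    refine ⟨g + g', X + X', Y + Y', Z + Z', ?_⟩
    ext i j
    rcases i with i | i | i | i <;> rcases j with j | j | j | j <;>
      simp [block, fromBlocks, fromCols, add_mul]
  smul_mem' := by
    rintro c _ ⟨g, X, Y, Z, rfl⟩
    refine ⟨c • g, c • X, c • Y, c • Z, ?_⟩
    ext i j
    rcases i with i | i | i | i <;> rcases j with j | j | j | j <;>
      simp [block, fromBlocks, fromCols, mul_assoc]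

theorem mem_lieP {M : Matrix (Ix r s t) (Ix r s t) F} :
    M ∈ lieP F r s t ↔ ∃ g X Y Z, M = block 0 g X Y Z g.trace := Iff.rfl

end Pool.Agent.Q50.EM
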