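import Pool.Agent.Q50.EM.Defs
import Pool.Agent.Q50.LR.Der

/-!
# Project EM (helper50): 1-motives attached to an elliptic curve. Specifications of the parts

Job `J1`: Lie algebras of two by two matrices without common eigenvector.
Job `J5`: from the Lie algebra to the group.
Job `J6`: the group is algebraic.
-/

open Matrix

namespace Pool.Agent.Q50.EM

open Pool.Agent.Q50.LR

/-- **Job J1.** A Lie algebra of two by two matrices over an algebraically closed field of
characteristic zero without common eigenvector contains `sl_2`.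

Proof: let `T` be the image of `S` under `x ↦ x - (tr x / 2) • 1` (it has no common eigenvector
either, it is closed under the bracket, and it suffices to show that every matrix of trace zero is in
`T`, since then, `[T, T] = [S, S] ⊂ S` and `[sl_2, sl_2] = sl_2`, it is in `S`). If `finrank T = 3`
then `T = sl_2`. If `finrank T ≤ 1`, an eigenvector of a generator is a common eigenvector. If
`finrank T = 2`, `T = ⟨x, y⟩`, then `z = [x, y]` is not zero (commuting matrices have a common
eigenvector), and `z ∈ T`; take `x' ∈ T` with `T = ⟨x', z⟩`; `[x', z]` is a multiple of `[x, y] = z`, so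
the matrix `z` is nilpotent (if the multiple is not zero; otherwise `T` is commutative), and the kernel
of `z`, a line, is stable under `x'`. (Lie's theorem in Mathlib is an alternative.) -/
def J1 : Prop := ∀ (K : Type) [Field K] [CharZero K] [IsAlgClosed K]
  (S : Submodule K (Matrix (Fin 2) (Fin 2) K)) (_ : ∀ x ∈ S, ∀ y ∈ S, x * y - y * x ∈ S)
  (_ : ∀ v : Fin 2 → K, v ≠ 0 → ¬ ∀ x ∈ S, ∃ c : K, x *ᵥ v = c • v)
  (x : Matrix (Fin 2) (Fin 2) K), x.trace = 0 → x ∈ S

/-- The matrix with rows `(1, X, Y)`, `(0, g, (Z, 0))`, `(0, 0, det g)`. -/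
noncomputable def grp {r s t : ℕ} (g : Matrix (Fin 2) (Fin 2) ℂ) (X : Matrix (Fin r) (Fin 2) ℂ)
    (Y : Matrix (Fin r) (Fin s ⊕ Fin t) ℂ) (Z : Matrix (Fin 2) (Fin s) ℂ) :
    Matrix (Ix r s t) (Ix r s t) ℂ := block 1 g X Y Z g.det

/-- **Job J5.** Let `e` be a numbering of the indices and let `H` be an algebraic group over `K` whose
Lie algebra (`Pool.Agent.Q50.LR.LC H`) contains the matrices of `lieP` (renumbered). Then `H` contains
the matrices `grp g X Y Z`, `det g ≠ 0`.

Proof: by `Pool.Agent.Q50.LR.LC_le_lieAlg`, `H` contains `exp (z • Z)` for `Z ∈ LC H`. `grp 1 X Y Z'` is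
the exponential of the nilpotent matrix `N` of `lieP` with `N^3 = 0` and parts `0, X, Y - X Z' / 2, Z'`;
`grp g 0 0 0` is a product of exponentials: `g` is a product of transvections (exponentials of multiples of
`single i j 1`) and of diagonal matrices (exponentials of diagonal matrices, the trace of which gives the
determinant), e.g. `Matrix.Pivot` or by hand for two by two matrices. And
`grp g X Y Z = grp 1 X' Y' Z' * grp g 0 0 0` with `X' = X g⁻¹`, `Y' = (det g)⁻¹ Y`, `Z' = (det g)⁻¹ Z`. -/
def J5 : Prop := ∀ (K : Type) [Field K] [Algebra K ℂ] (r s t n : ℕ) (e : Ix r s t ≃ Fin n)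
  (H : Subgroup (GL (Fin n) ℂ)) (_ : IsAlgebraicGroup K H)
  (_ : ∀ M ∈ lieP ℂ r s t, M.reindex e e ∈ LC H)
  (g : Matrix (Fin 2) (Fin 2) ℂ) (_ : g.det ≠ 0) (X : Matrix (Fin r) (Fin 2) ℂ)
  (Y : Matrix (Fin r) (Fin s ⊕ Fin t) ℂ) (Z : Matrix (Fin 2) (Fin s) ℂ),
  ∃ h ∈ H, (h : Matrix (Fin n) (Fin n) ℂ) = (grp g X Y Z).reindex e e

end Pool.Agent.Q50.EM
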