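import Pool.Agent.Q50.EM.Lin2
import Pool.Agent.Q50.EM.Spec
import Pool.Agent.Q50.LR.Dsc

/-!
# The logarithmic derivatives of the period matrix
-/

open Matrix

namespace Pool.Agent.Q50.EM

set_option maxHeartbeats 4000000
set_option synthInstance.maxHeartbeats 400000

open Pool.Agent.Q50.LR

variable {K : Type} [Field K] [Algebra K ℂ] {r s t : ℕ}

theorem map_mul_der (δ : Derivation K ℂ ℂ) {A B C : Type} [Fintype B]
    (M : Matrix A B ℂ) (N : Matrix B C ℂ) :
    (M * N).map δ = M.map δ * N + M * N.map δ := by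
  ext i j
  simp only [Matrix.map_apply, Matrix.add_apply, Matrix.mul_apply, map_sum,
    ← Finset.sum_add_distrib, Derivation.leibniz, smul_eq_mul]
  refine Finset.sum_congr rfl fun l _ => ?_
  ring

/-- The data. -/
structure Dat (r s t : ℕ) where
  Ω : Matrix (Fin 2) (Fin 2) ℂ
  P0 : Matrix (Fin r) (Fin 2) ℂ
  B : Matrix (Fin 2) (Fin s) ℂ
  C : Matrix (Fin r) (Fin s ⊕ Fin t) ℂ
  T : ℂ
  m : ℤ
  hm : m ≠ 0
  hT : T ≠ 0
  det : Ω.det = m * T

namespace Dat

variable (D : Dat r s t)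

theorem det_ne : D.Ω.det ≠ 0 := by
  rw [D.det]
  exact mul_ne_zero (Int.cast_ne_zero.2 D.hm) D.hT

theorem det_eq : D.Ω 0 0 * D.Ω 1 1 - D.Ω 0 1 * D.Ω 1 0 = D.m * D.T := by
  rw [← D.det, Matrix.det_fin_two]

/-- The period matrix. -/
noncomputable def per : Matrix (Ix r s t) (Ix r s t) ℂ :=
  block 1 D.Ω D.P0 D.C (D.Ω * D.B) D.T

variable (δ : Derivation K ℂ ℂ)

/-- the middle part of the logarithmic derivative -/
noncomputable def G : Matrix (Fin 2) (Fin 2) ℂ := D.Ω.map δ * D.Ω⁻¹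

/-- the upper part -/
noncomputable def X : Matrix (Fin r) (Fin 2) ℂ := D.P0.map δ * D.Ω⁻¹

/-- the right part -/
noncomputable def Z : Matrix (Fin 2) (Fin s) ℂ := D.T⁻¹ • (D.Ω * D.B.map δ)

/-- the corner -/
noncomputable def Y : Matrix (Fin r) (Fin s ⊕ Fin t) ℂ :=
  D.T⁻¹ • (D.C.map δ - D.X δ * fromCols (D.Ω * D.B) 0)

/-- the logarithmic derivative -/
noncomputable def der : Matrix (Ix r s t) (Ix r s t) ℂ :=
  block 0 (D.G δ) (D.X δ) (D.Y δ) (D.Z δ) (D.T⁻¹ * δ D.T)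

theorem G_mul : D.G δ * D.Ω = D.Ω.map δ := by
  rw [G, Matrix.mul_assoc, Matrix.nonsing_inv_mul _ (isUnit_iff_ne_zero.2 D.det_ne),
    Matrix.mul_one]

theorem X_mul : D.X δ * D.Ω = D.P0.map δ := by
  rw [X, Matrix.mul_assoc, Matrix.nonsing_inv_mul _ (isUnit_iff_ne_zero.2 D.det_ne),
    Matrix.mul_one]

theorem trace_G : (D.G δ).trace = D.T⁻¹ * δ D.T := by
  have h1 : D.Ω⁻¹ = (D.m * D.T)⁻¹ • D.Ω.adjugate := by
    rw [Matrix.inv_def, D.det, Ring.inverse_eq_inv']
  have h2 : δ (D.Ω 0 0 * D.Ω 1 1 - D.Ω 0 1 * D.Ω 1 0) = D.m * δ D.T := by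
    rw [D.det_eq, Derivation.leibniz]
    have h3 : δ (D.m : ℂ) = 0 := by
      have := δ.map_algebraMap (D.m : K)
      rwa [map_intCast] at this
    rw [h3]
    simp
  rw [map_sub, Derivation.leibniz, Derivation.leibniz] at h2
  simp only [smul_eq_mul] at h2
  have hmm : (D.m : ℂ) ≠ 0 := Int.cast_ne_zero.2 D.hm
  have hTT := D.hT
  rw [G, h1, Matrix.adjugate_fin_two]
  simp only [Matrix.trace_fin_two, Matrix.mul_apply, Fin.sum_univ_two, Matrix.smul_apply,
    Matrix.map_apply, Matrix.of_apply, Matrix.cons_val', Matrix.cons_val_zero,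
    Matrix.cons_val_one, Matrix.cons_val_fin_one, smul_eq_mul]
  field_simp
  linear_combination h2

theorem der_mem : D.der δ ∈ lieP ℂ r s t := by
  rw [mem_lieP, der, ← D.trace_G δ]
  exact ⟨_, _, _, _, rfl⟩

theorem der_mul : D.der δ * D.per = D.per.map δ := by
  rw [der, per, block_mul]
  have h1 : ∀ (e : Matrix (Fin r) (Fin r) ℂ) g X Y (Z : Matrix (Fin 2) (Fin s) ℂ) d,
      (block e g X Y Z d : Matrix (Ix r s t) (Ix r s t) ℂ).map δ =
        block (e.map δ) (g.map δ) (X.map δ) (Y.map δ) (Z.map δ) (δ d) := by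
    intro e g X Y Z d
    ext a b
    rcases a with a | a | a | a <;> rcases b with b | b | b | b <;>
      simp [block, fromBlocks, fromCols, Matrix.one_apply] <;> split_ifs <;> simp
  rw [h1]
  have hT := D.hT
  have e1 : (1 : Matrix (Fin r) (Fin r) ℂ).map δ = 0 := by
    ext a b
    simp only [Matrix.map_apply, Matrix.one_apply, Matrix.zero_apply]
    split_ifs <;> simp
  have e2 : D.T • D.Y δ = D.C.map δ - D.X δ * fromCols (D.Ω * D.B) 0 := by
    rw [Y, smul_smul, mul_inv_cancel₀ hT, one_smul]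
  have e3 : D.T • D.Z δ = D.Ω * D.B.map δ := by
    rw [Z, smul_smul, mul_inv_cancel₀ hT, one_smul]
  rw [e1, e2, e3, D.G_mul, zero_mul, Matrix.zero_mul, Matrix.zero_mul, zero_add, zero_add,
    D.X_mul, add_sub_cancel, ← Matrix.mul_assoc, D.G_mul, map_mul_der]
  congr 1
  field_simp

end Dat

end Pool.Agent.Q50.EM
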