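import Pool.Agent.Q50.EM.Drm

/-!
# The Lie algebra over `K`
-/

open Matrix

namespace Pool.Agent.Q50.EM

set_option maxHeartbeats 4000000
set_option synthInstance.maxHeartbeats 400000

open Pool.Agent.Q50.LR

variable {K : Type} [Field K] [Algebra K ℂ] {r s t : ℕ}

namespace Dat

variable (D : Dat r s t) (δ : Derivation K ℂ ℂ)

/-- the points -/
noncomputable def R : Matrix (Fin r ⊕ Fin s) (Fin 2) ℂ :=
  Matrix.of fun w a => Sum.elim (fun i => D.P0 i a) (fun j => ![D.m * D.B 1 j, -(D.m * D.B 0 j)] a) w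

theorem gP_der : gP (D.der δ) = D.G δ := gP_block _ _ _ _ _

theorem nP_der_mul : nP (D.der δ) * D.Ω = D.R.map δ := by
  have hT := D.hT
  have hdet := D.det_eq
  have hm : ∀ z : ℂ, δ (D.m * z) = D.m * δ z := by
    intro z
    have h3 : δ (D.m : ℂ) = 0 := by
      have := δ.map_algebraMap (D.m : K)
      rwa [map_intCast] at this
    rw [Derivation.leibniz, h3]
    simp
  rw [der, nP_block]
  ext w a
  rcases w with i | j
  · have h1 := congrFun (congrFun (D.X_mul δ) i) a
    simpa [Matrix.mul_apply, R] using h1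
  · simp only [Matrix.mul_apply, Matrix.of_apply, Sum.elim_inr, Fin.sum_univ_two, Matrix.map_apply,
      R, Z, Matrix.smul_apply, smul_eq_mul, Matrix.cons_val_zero, Matrix.cons_val_one]
    fin_cases a
    · simp only [Fin.zero_eta, Matrix.cons_val_zero, hm]
      field_simp
      linear_combination (δ (D.B 1 j)) * hdet
    · simp only [Fin.mk_one, Matrix.cons_val_one, Matrix.cons_val_fin_one, map_neg, hm]
      field_simp
      linear_combination (-δ (D.B 0 j)) * hdet

theorem yP_der (i : Fin r) (k : Fin t) :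
    D.T * yP (D.der δ) i (Sum.inr k) = δ (D.C i (Sum.inr k)) := by
  have hT := D.hT
  rw [der, yP_block, Y]
  simp only [Matrix.smul_apply, smul_eq_mul, Matrix.sub_apply, Matrix.map_apply, Matrix.mul_apply,
    fromCols, Matrix.of_apply, Sum.elim_inr, Matrix.zero_apply, mul_zero, Finset.sum_const_zero,
    sub_zero]
  field_simp

end Dat

/-- the matrices over `K` -/
theorem map_mem_lieP (ν : ℂ →ₗ[K] K) {M : Matrix (Ix r s t) (Ix r s t) ℂ}
    (hM : M ∈ lieP ℂ r s t) : M.map ν ∈ lieP K r s t := by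
  obtain ⟨g, X, Y, Z, rfl⟩ := hM
  refine ⟨g.map ν, X.map ν, Y.map ν, Z.map ν, ?_⟩
  ext a b
  rcases a with a | a | a | a <;> rcases b with b | b | b | b <;>
    simp [block, fromBlocks, fromCols, Matrix.trace_fin_two, Matrix.one_apply] <;> split_ifs <;>
    simp

theorem lieP_bracket {x y : Matrix (Ix r s t) (Ix r s t) K} (hx : x ∈ lieP K r s t)
    (hy : y ∈ lieP K r s t) : x * y - y * x ∈ lieP K r s t := by
  obtain ⟨g, X, Y, Z, rfl⟩ := hx
  obtain ⟨g', X', Y', Z', rfl⟩ := hy
  rw [block_mul, block_mul]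
  refine ⟨g * g' - g' * g, X * g' - X' * g, (X * fromCols Z' 0 + g'.trace • Y) -
    (X' * fromCols Z 0 + g.trace • Y'), (g * Z' + g'.trace • Z) - (g' * Z + g.trace • Z'),
    ?_⟩
  ext a b
  rcases a with a | a | a | a <;> rcases b with b | b | b | b <;>
    simp [block, fromBlocks, fromCols, Matrix.trace_fin_two, Matrix.one_apply, Matrix.mul_apply] <;>
    split_ifs <;> ring_nf

/-- The Lie algebra of the group, over `K`, intersected with `lieP`. -/
noncomputable def LL (K : Type) [Field K] [Algebra K ℂ] {r s t n : ℕ} (e : Ix r s t ≃ Fin n)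
    (H : Subgroup (GL (Fin n) ℂ)) : Submodule K (Matrix (Ix r s t) (Ix r s t) K) :=
  lieP K r s t ⊓ (LK K H).comap (Matrix.reindexLinearEquiv K K e e).toLinearMap

theorem mem_LL {n : ℕ} {e : Ix r s t ≃ Fin n} {H : Subgroup (GL (Fin n) ℂ)}
    {x : Matrix (Ix r s t) (Ix r s t) K} :
    x ∈ LL K e H ↔ x ∈ lieP K r s t ∧ x.reindex e e ∈ LK K H := Iff.rfl

theorem LL_bracket {n : ℕ} {e : Ix r s t ≃ Fin n} {H : Subgroup (GL (Fin n) ℂ)}
    {x y : Matrix (Ix r s t) (Ix r s t) K} (hx : x ∈ LL K e H) (hy : y ∈ LL K e H) :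
    x * y - y * x ∈ LL K e H := by
  refine ⟨lieP_bracket hx.1 hy.1, ?_⟩
  have h1 := LK_bracket (mem_LL.1 hx).2 (mem_LL.1 hy).2
  have h2 : (x * y - y * x).reindex e e =
      x.reindex e e * y.reindex e e - y.reindex e e * x.reindex e e := by
    simp only [Matrix.reindex_apply, Matrix.submatrix_mul_equiv]
    rfl
  change (x * y - y * x).reindex e e ∈ LK K H
  rw [h2]
  exact h1

variable (D : Dat r s t)

/-- The components of the logarithmic derivatives belong to the Lie algebra. -/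
theorem comp_mem [IsAlgClosed K] {n : ℕ} {e : Ix r s t ≃ Fin n} {H : Subgroup (GL (Fin n) ℂ)}
    (hH : IsAlgebraicGroup K H) {P : GL (Fin n) ℂ} (hP : OnTorsor K H P)
    (hPD : (P : Matrix (Fin n) (Fin n) ℂ) = D.per.reindex e e) (δ : Derivation K ℂ ℂ)
    (ν : ℂ →ₗ[K] K) : (D.der δ).map ν ∈ LL K e H := by
  refine ⟨map_mem_lieP ν (D.der_mem δ), ?_⟩
  change ((D.der δ).map ν).reindex e e ∈ LK K H
  have h1 : ((D.der δ).map ν).reindex e e = ((D.der δ).reindex e e).map ν := rfl
  rw [h1]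
  apply comp_mem_LK hH
  have h2 : (D.der δ).reindex e e = ld δ P := by
    rw [ld, hPD]
    have h3 : dm δ (D.per.reindex e e) = (D.der δ).reindex e e * D.per.reindex e e := by
      rw [dm]
      change (D.per.map δ).reindex e e = _
      rw [← D.der_mul δ]
      simp only [Matrix.reindex_apply, Matrix.submatrix_mul_equiv]
    rw [h3, ← hPD, Matrix.mul_assoc, mul_inv_coe, Matrix.mul_one]
  rw [h2]
  exact ld_mem_LC hH hP δ

end Pool.Agent.Q50.EM
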