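import Pool.Agent.Q50.EM.Drm2

/-!
# The Lie algebra over `K` is everything
-/

open Matrix

namespace Pool.Agent.Q50.EM

set_option maxHeartbeats 4000000
set_option synthInstance.maxHeartbeats 400000

open Pool.Agent.Q50.LR

variable {K : Type} [Field K] [Algebra K ℂ] {r s t : ℕ}

/-- The transcendence of the periods. -/
structure Tr (K : Type) [Field K] [Algebra K ℂ] (D : Dat r s t) : Prop where
  h1 : ∀ x y a b : K, (x ≠ 0 ∨ y ≠ 0) →
    algebraMap K ℂ b * (algebraMap K ℂ x * D.Ω 0 0 + algebraMap K ℂ y * D.Ω 0 1) =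
      algebraMap K ℂ a * (algebraMap K ℂ x * D.Ω 1 0 + algebraMap K ℂ y * D.Ω 1 1) →
    a = 0 ∧ b = 0
  h2 : ∀ (w : Fin r ⊕ Fin s → K) (v : Fin 2 → K) (c : K),
    ∑ i, algebraMap K ℂ (w i) * D.R i 0 - ∑ a, algebraMap K ℂ (v a) * D.Ω a 0 =
      algebraMap K ℂ c → w = 0
  h3 : ∀ (β : Matrix (Fin r) (Fin t) K) (v c : K),
    ∑ i, ∑ k, algebraMap K ℂ (β i k) * D.C i (Sum.inr k) - algebraMap K ℂ v * D.T =
      algebraMap K ℂ c → β = 0
  h4 : Transcendental K D.T

/-- Two complex numbers with the same components. -/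
theorem eq_of_comp {a b : ℂ} (h : ∀ ν : ℂ →ₗ[K] K, ν a = ν b) : a = b := by
  rw [← sub_eq_zero, ← Module.forall_dual_apply_eq_zero_iff K]
  intro ν
  rw [map_sub, h ν, sub_self]

theorem nu_mul (ν : ℂ →ₗ[K] K) (a : K) (z : ℂ) : ν (algebraMap K ℂ a * z) = a * ν z := by
  rw [← Algebra.smul_def, map_smul, smul_eq_mul]

theorem der_mulK (δ : Derivation K ℂ ℂ) (a : K) (z : ℂ) :
    δ (algebraMap K ℂ a * z) = algebraMap K ℂ a * δ z := by
  rw [Derivation.leibniz, δ.map_algebraMap, smul_zero, add_zero, smul_eq_mul]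

variable (D : Dat r s t)

section

variable [IsAlgClosed K] (hT : Tr K D) {n : ℕ} {e : Ix r s t ≃ Fin n}
  {H : Subgroup (GL (Fin n) ℂ)} (hH : IsAlgebraicGroup K H) {P : GL (Fin n) ℂ}
  (hP : OnTorsor K H P) (hPD : (P : Matrix (Fin n) (Fin n) ℂ) = D.per.reindex e e)

include hT hH hP hPD

theorem pts_ok (w : Fin r ⊕ Fin s → K) (v : Fin 2 → K)
    (h : ∀ x ∈ LL K e H, w ᵥ* nP x = v ᵥ* gP x) : w = 0 := by
  -- over the complex numbers
  have h1 : ∀ (δ : Derivation K ℂ ℂ) (a : Fin 2),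
      ∑ i, algebraMap K ℂ (w i) * nP (D.der δ) i a =
        ∑ b, algebraMap K ℂ (v b) * gP (D.der δ) b a := by
    intro δ a
    apply eq_of_comp (K := K)
    intro ν
    have h2 := congrFun (h _ (comp_mem D hH hP hPD δ ν)) a
    simp only [vecMul, dotProduct] at h2
    rw [map_sum, map_sum]
    simp only [nu_mul]
    have hn : ∀ i, nP ((D.der δ).map ν) i a = ν (nP (D.der δ) i a) := by
      intro i
      rcases i with i | j
      · rfl
      · fin_cases a
        · rfl
        · change -ν _ = ν (-_)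
          rw [map_neg]
    have hg : ∀ i, gP ((D.der δ).map ν) i a = ν (gP (D.der δ) i a) := fun i => rfl
    simp only [hn, hg] at h2
    exact h2
  -- the derivations of the linear form
  have h3 : ∀ δ : Derivation K ℂ ℂ,
      δ (∑ i, algebraMap K ℂ (w i) * D.R i 0 - ∑ a, algebraMap K ℂ (v a) * D.Ω a 0) = 0 := by
    intro δ
    rw [map_sub, map_sum, map_sum]
    simp only [der_mulK]
    have e1 : ∀ i, δ (D.R i 0) = ∑ b, nP (D.der δ) i b * D.Ω b 0 := by
      intro i
      have := congrFun (congrFun (D.nP_der_mul δ) i) 0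
      rw [Matrix.mul_apply] at this
      exact this.symm
    have e2 : ∀ a, δ (D.Ω a 0) = ∑ b, gP (D.der δ) a b * D.Ω b 0 := by
      intro a
      have := congrFun (congrFun (D.G_mul δ) a) 0
      rw [Matrix.mul_apply, ← D.gP_der] at this
      exact this.symm
    simp only [e1, e2, Fin.sum_univ_two]
    have f0 := h1 δ 0
    have f1 := h1 δ 1
    simp only [Fin.sum_univ_two] at f0 f1
    have g1 : ∑ x, algebraMap K ℂ (w x) * (nP (D.der δ) x 0 * D.Ω 0 0 + nP (D.der δ) x 1 * D.Ω 1 0) =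
        (∑ x, algebraMap K ℂ (w x) * nP (D.der δ) x 0) * D.Ω 0 0 +
        (∑ x, algebraMap K ℂ (w x) * nP (D.der δ) x 1) * D.Ω 1 0 := by
      rw [Finset.sum_mul, Finset.sum_mul, ← Finset.sum_add_distrib]
      refine Finset.sum_congr rfl fun x _ => ?_
      ring
    rw [g1, f0, f1]
    ring
  obtain ⟨c, hc⟩ := const_of_der h3
  exact hT.h2 w v c hc.symm

theorem logs_ok (β : Matrix (Fin r) (Fin t) K) (v : K)
    (h : ∀ x ∈ LL K e H, ∑ i, ∑ k, β i k * yP x i (Sum.inr k) = v * (gP x).trace) : β = 0 := by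
  have hTne := D.hT
  have h1 : ∀ (δ : Derivation K ℂ ℂ),
      ∑ i, ∑ k, algebraMap K ℂ (β i k) * yP (D.der δ) i (Sum.inr k) =
        algebraMap K ℂ v * (gP (D.der δ)).trace := by
    intro δ
    apply eq_of_comp (K := K)
    intro ν
    have h2 := h _ (comp_mem D hH hP hPD δ ν)
    rw [nu_mul, map_sum]
    simp only [map_sum, nu_mul]
    rw [Matrix.trace_fin_two] at h2 ⊢
    rw [map_add]
    exact h2
  have h3 : ∀ δ : Derivation K ℂ ℂ,
      δ (∑ i, ∑ k, algebraMap K ℂ (β i k) * D.C i (Sum.inr k) - algebraMap K ℂ v * D.T) = 0 := by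
    intro δ
    rw [map_sub, map_sum]
    simp only [map_sum, der_mulK]
    simp only [← D.yP_der δ]
    have h4 := h1 δ
    rw [D.gP_der, D.trace_G] at h4
    have h5 : ∑ i, ∑ k, algebraMap K ℂ (β i k) * (D.T * yP (D.der δ) i (Sum.inr k)) =
        D.T * ∑ i, ∑ k, algebraMap K ℂ (β i k) * yP (D.der δ) i (Sum.inr k) := by
      simp only [Finset.mul_sum]
      refine Finset.sum_congr rfl fun i _ => Finset.sum_congr rfl fun k _ => ?_
      ring
    rw [h5, h4]
    field_simp
    ring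
  obtain ⟨c, hc⟩ := const_of_der h3
  exact hT.h3 β v c hc.symm

theorem exists_trace : ∃ x ∈ LL K e H, (gP x).trace ≠ 0 := by
  have hTne := D.hT
  by_contra hcon
  push Not at hcon
  have h1 : ∀ δ : Derivation K ℂ ℂ, δ D.T = 0 := by
    intro δ
    have h2 : (gP (D.der δ)).trace = 0 := by
      apply eq_of_comp (K := K)
      intro ν
      rw [map_zero, Matrix.trace_fin_two, map_add]
      have := hcon _ (comp_mem D hH hP hPD δ ν)
      rw [Matrix.trace_fin_two] at this
      exact this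
    rw [D.gP_der, D.trace_G] at h2
    rcases mul_eq_zero.1 h2 with h3 | h3
    · exact absurd h3 (inv_ne_zero hTne)
    · exact h3
  obtain ⟨c, hc⟩ := const_of_der h1
  exact hT.h4 (hc ▸ isAlgebraic_algebraMap c)

theorem no_eigen (v : Fin 2 → K) (hv : v ≠ 0)
    (h : ∀ x ∈ LL K e H, ∃ c : K, gP x *ᵥ v = c • v) : False := by
  -- over the complex numbers
  have h1 : ∀ δ : Derivation K ℂ ℂ,
      algebraMap K ℂ (v 1) * (D.G δ 0 0 * algebraMap K ℂ (v 0) + D.G δ 0 1 * algebraMap K ℂ (v 1)) =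
      algebraMap K ℂ (v 0) *
        (D.G δ 1 0 * algebraMap K ℂ (v 0) + D.G δ 1 1 * algebraMap K ℂ (v 1)) := by
    intro δ
    apply eq_of_comp (K := K)
    intro ν
    obtain ⟨c, hc⟩ := h _ (comp_mem D hH hP hPD δ ν)
    have c0 := congrFun hc 0
    have c1 := congrFun hc 1
    simp only [mulVec, dotProduct, Fin.sum_univ_two, Pi.smul_apply, smul_eq_mul] at c0 c1
    have g : ∀ a b, gP ((D.der δ).map ν) a b = ν (D.G δ a b) := by
      intro a b
      rw [← D.gP_der]
      rfl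
    rw [g, g] at c0 c1
    rw [nu_mul, nu_mul, map_add, map_add, mul_comm (D.G δ 0 0), mul_comm (D.G δ 0 1),
      mul_comm (D.G δ 1 0), mul_comm (D.G δ 1 1), nu_mul, nu_mul, nu_mul, nu_mul]
    linear_combination (v 1) * c0 - (v 0) * c1
  -- the vector `a = Ω⁻¹ v`
  set vc : Fin 2 → ℂ := fun i => algebraMap K ℂ (v i) with hvc
  set a : Fin 2 → ℂ := D.Ω⁻¹ *ᵥ vc with ha
  have hinv : D.Ω * D.Ω⁻¹ = 1 := Matrix.mul_nonsing_inv _ (isUnit_iff_ne_zero.2 D.det_ne)
  have hΩa : D.Ω *ᵥ a = vc := by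
    rw [ha, Matrix.mulVec_mulVec, hinv, Matrix.one_mulVec]
  have e0 : D.Ω 0 0 * a 0 + D.Ω 0 1 * a 1 = vc 0 := by
    have := congrFun hΩa 0
    simpa [mulVec, dotProduct, Fin.sum_univ_two] using this
  have e1 : D.Ω 1 0 * a 0 + D.Ω 1 1 * a 1 = vc 1 := by
    have := congrFun hΩa 1
    simpa [mulVec, dotProduct, Fin.sum_univ_two] using this
  have hdet := D.det_eq
  have hdet0 : (D.m : ℂ) * D.T ≠ 0 := mul_ne_zero (Int.cast_ne_zero.2 D.hm) D.hT
  have ha0 : a 0 ≠ 0 ∨ a 1 ≠ 0 := by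
    by_contra hcon
    push Not at hcon
    apply hv
    have hinj : Function.Injective (algebraMap K ℂ) := (algebraMap K ℂ).injective
    ext i
    apply hinj
    rw [Pi.zero_apply, map_zero]
    fin_cases i
    · change vc 0 = 0
      rw [← e0, hcon.1, hcon.2]
      ring
    · change vc 1 = 0
      rw [← e1, hcon.1, hcon.2]
      ring
  -- the derivations of `a`
  have h2 : ∀ δ : Derivation K ℂ ℂ, a 1 * δ (a 0) = a 0 * δ (a 1) := by
    intro δ
    have d0 : δ (vc 0) = 0 := δ.map_algebraMap _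
    have d1 : δ (vc 1) = 0 := δ.map_algebraMap _
    rw [← e0] at d0
    rw [← e1] at d1
    rw [map_add, Derivation.leibniz, Derivation.leibniz] at d0 d1
    simp only [smul_eq_mul] at d0 d1
    have g : ∀ i j, δ (D.Ω i j) = D.G δ i 0 * D.Ω 0 j + D.G δ i 1 * D.Ω 1 j := by
      intro i j
      have := congrFun (congrFun (D.G_mul δ) i) j
      rw [Matrix.mul_apply, Fin.sum_univ_two] at this
      exact this.symm
    rw [g, g] at d0 d1
    have k1 := h1 δ
    change vc 1 * (D.G δ 0 0 * vc 0 + D.G δ 0 1 * vc 1) =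
      vc 0 * (D.G δ 1 0 * vc 0 + D.G δ 1 1 * vc 1) at k1
    rw [← e0, ← e1] at k1
    have k2 : (D.m * D.T) * (a 1 * δ (a 0) - a 0 * δ (a 1)) = 0 := by
      rw [← hdet]
      linear_combination (D.Ω 1 0 * a 0 + D.Ω 1 1 * a 1) * d0 -
        (D.Ω 0 0 * a 0 + D.Ω 0 1 * a 1) * d1 - k1
    rcases mul_eq_zero.1 k2 with k3 | k3
    · exact absurd k3 hdet0
    · exact sub_eq_zero.1 k3
  -- `a` is proportional to a vector over `K`
  obtain ⟨x, y, l, hxy, hl, hx, hy⟩ : ∃ (x y : K) (l : ℂ), (x ≠ 0 ∨ y ≠ 0) ∧ l ≠ 0 ∧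
      a 0 = l * algebraMap K ℂ x ∧ a 1 = l * algebraMap K ℂ y := by
    by_cases h0 : a 1 = 0
    · have h00 : a 0 ≠ 0 := by
        rcases ha0 with h | h
        · exact h
        · exact absurd h0 h
      exact ⟨1, 0, a 0, Or.inl one_ne_zero, h00, by rw [map_one, mul_one], by
        rw [map_zero, mul_zero, h0]⟩
    · obtain ⟨c, hc⟩ := const_of_der (K := K) (z := a 0 / a 1) (by
        intro δ
        have k1 : δ (a 0 / a 1 * a 1) = δ (a 0) := by rw [div_mul_cancel₀ _ h0]
        rw [Derivation.leibniz] at k1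
        simp only [smul_eq_mul] at k1
        have k2 : a 1 * (a 1 * δ (a 0 / a 1)) = 0 := by
          have k3 : a 1 * (a 0 / a 1 * δ (a 1)) = a 0 * δ (a 1) := by
            field_simp
          linear_combination (a 1) * k1 + h2 δ - k3
        rcases mul_eq_zero.1 k2 with k3 | k3
        · exact absurd k3 h0
        · rcases mul_eq_zero.1 k3 with k4 | k4
          · exact absurd k4 h0
          · exact k4)
      refine ⟨c, 1, a 1, Or.inr one_ne_zero, h0, ?_, by rw [map_one, mul_one]⟩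
      rw [hc]
      field_simp
  have h5 := hT.h1 x y (v 0) (v 1) hxy (by
    change vc 1 * _ = vc 0 * _
    apply mul_left_cancel₀ hl
    have e0' : l * (algebraMap K ℂ x * D.Ω 0 0 + algebraMap K ℂ y * D.Ω 0 1) = vc 0 := by
      rw [← e0, hx, hy]
      ring
    have e1' : l * (algebraMap K ℂ x * D.Ω 1 0 + algebraMap K ℂ y * D.Ω 1 1) = vc 1 := by
      rw [← e1, hx, hy]
      ring
    linear_combination (vc 1) * e0' - (vc 0) * e1')
  apply hv
  ext i
  fin_cases i
  · exact h5.1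
  · exact h5.2

/-- **The Lie algebra over `K`.** -/
theorem LL_eq (hJ : J1) : LL K e H = lieP K r s t := by
  have : CharZero K := (algebraMap K ℂ).charZero
  have hsl : ∀ x : Matrix (Fin 2) (Fin 2) K, x.trace = 0 → x ∈ (LL K e H).map gP := by
    apply hJ K
    · rintro _ ⟨x, hx, rfl⟩ _ ⟨y, hy, rfl⟩
      refine ⟨x * y - y * x, LL_bracket hx hy, ?_⟩
      rw [gP_bracket hx.1 hy.1]
    · intro v hv h
      apply no_eigen D hT hH hP hPD v hv
      intro x hx
      exact h _ ⟨x, hx, rfl⟩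
  have hG : Good (LL K e H) :=
    { le := inf_le_left
      br := fun x hx y hy => LL_bracket hx hy
      surj := by
        intro g
        obtain ⟨x, hx, hx0⟩ := exists_trace D hT hH hP hPD
        set c := g.trace / (gP x).trace with hc
        obtain ⟨y, hy, hyg⟩ := hsl (g - c • gP x) (by
          rw [Matrix.trace_sub, Matrix.trace_smul, smul_eq_mul, hc, div_mul_cancel₀ _ hx0,
            sub_self])
        refine ⟨y + c • x, (LL K e H).add_mem hy ((LL K e H).smul_mem c hx), ?_⟩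
        rw [map_add, map_smul, hyg, sub_add_cancel]
      pts := pts_ok D hT hH hP hPD
      logs := logs_ok D hT hH hP hPD }
  exact hG.eq

end

end Pool.Agent.Q50.EM
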