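import Pool.Agent.W245.EB.RedZ
import Pool.Agent.H297R2.InBakerThm
import Pool.Agent.TH818.AP.Wp

/-!
# The transcendence theorems used for the periods of 1-motives attached to an elliptic curve
-/

open scoped PeriodPair

namespace Pool.Agent.Q50.EM

set_option maxHeartbeats 4000000
set_option synthInstance.maxHeartbeats 400000

open H667R3 Pool.Agent.W245.EB

variable {L : PeriodPair}

/-- no complex multiplication -/
def NoCM (L : PeriodPair) : Prop :=
  ∀ α : ℂ, (∀ w ∈ L.lattice, α * w ∈ L.lattice) → ∃ m : ℤ, α = m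

theorem kL_rat (hE : NoCM L) {α : ℂ} (hα : α ∈ kL L) : ∃ q : ℚ, α = q := by
  obtain ⟨m, hm, h⟩ := mem_kL.1 hα
  obtain ⟨k, hk⟩ := hE _ h
  have hm0 : (m : ℂ) ≠ 0 := by exact_mod_cast hm.ne'
  refine ⟨(k : ℚ) / m, ?_⟩
  push_cast
  rw [eq_div_iff hm0, ← hk, mul_comm]

theorem ind_kL (hE : NoCM L) {ι : Type} [Fintype ι] {l : ι → ℂ} (hl : LinearIndependent ℚ l) :
    ∀ α : ι → ℂ, (∀ r, α r ∈ kL L) → ∑ r, α r * l r = 0 → α = 0 := by
  intro α hα h0
  choose q hq using fun r => kL_rat hE (hα r)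
  have h1 : ∀ r, q r = 0 := by
    apply Fintype.linearIndependent_iff.1 hl q
    rw [← h0]
    refine Finset.sum_congr rfl fun r _ => ?_
    rw [Rat.smul_def, hq r]
  ext r
  rw [hq r, h1 r]
  simp

/-- elliptic logarithms -/
theorem ell_ind (h2 : IsAlgebraic ℚ L.g₂) (h3 : IsAlgebraic ℚ L.g₃) (hE : NoCM L)
    {ι : Type} [Fintype ι] {l : ι → ℂ} (hl : ∀ i, l i ∈ EL L) (hind : LinearIndependent ℚ l)
    (γ : ι → ℂ) (hγ : ∀ i, IsAlgebraic ℚ (γ i)) (h0 : IsAlgebraic ℚ (∑ i, γ i * l i)) : γ = 0 := by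
  classical
  let e := Fintype.equivFin ι
  have h4 := second_kind h2 h3 (l ∘ e.symm) (fun r => hl _)
    (ind_kL hE (hind.comp e.symm e.symm.injective)) 0 1 isAlgebraic_zero isAlgebraic_one
    (Or.inr one_ne_zero) (γ ∘ e.symm) (fun r => hγ _) (by
      have h5 : ∑ r, (γ ∘ e.symm) r * (0 * zt L ((l ∘ e.symm) r) + 1 * (l ∘ e.symm) r) =
          ∑ i, γ i * l i := by
        rw [← Equiv.sum_comp e.symm (fun i => γ i * l i)]
        refine Finset.sum_congr rfl fun r _ => ?_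
        simp
      rw [h5]
      exact h0)
  ext i
  have := congrFun h4 (e i)
  simpa using this

/-- the periods and the quasi-periods -/
theorem per_ind (h2 : IsAlgebraic ℚ L.g₂) (h3 : IsAlgebraic ℚ L.g₃) (hE : NoCM L)
    (hω : LinearIndependent ℚ ![L.ω₁, L.ω₂]) {x y a b : ℂ} (hx : IsAlgebraic ℚ x)
    (hy : IsAlgebraic ℚ y) (ha : IsAlgebraic ℚ a) (hb : IsAlgebraic ℚ b) (hxy : x ≠ 0 ∨ y ≠ 0)
    (h0 : b * (x * L.ω₁ + y * eta L L.ω₁) = a * (x * L.ω₂ + y * eta L L.ω₂)) : a = 0 ∧ b = 0 := by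
  have h4 := second_kind h2 h3 ![L.ω₁, L.ω₂]
    (by
      intro r
      fin_cases r
      · exact Or.inl L.ω₁_mem_lattice
      · exact Or.inl L.ω₂_mem_lattice)
    (ind_kL hE hω) y x hy hx hxy.symm ![b, -a]
    (by
      intro r
      fin_cases r
      · exact hb
      · exact ha.neg)
    (by
      have h5 : ∑ r, (![b, -a] : Fin 2 → ℂ) r * (y * zt L ((![L.ω₁, L.ω₂] : Fin 2 → ℂ) r) +
          x * (![L.ω₁, L.ω₂] : Fin 2 → ℂ) r) = 0 := by
        rw [Fin.sum_univ_two]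
        simp only [Matrix.cons_val_zero, Matrix.cons_val_one]
        rw [zt_of_mem L.ω₁_mem_lattice, zt_of_mem L.ω₂_mem_lattice]
        linear_combination h0
      rw [h5]
      exact isAlgebraic_zero)
  have h6 := congrFun h4 0
  have h7 := congrFun h4 1
  simp at h6 h7
  exact ⟨h7, h6⟩

/-- Legendre's relation, up to a rational factor -/
theorem legendre (L : PeriodPair) : ∃ n : ℤ, n ≠ 0 ∧
    L.ω₁ * eta L L.ω₂ - L.ω₂ * eta L L.ω₁ = n * (2 * Real.pi * Complex.I) := by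
  obtain ⟨C₁, hC₁, h₁⟩ := sigma_add_coe L L.ω₁_mem_lattice
  obtain ⟨C₂, hC₂, h₂⟩ := sigma_add_coe L L.ω₂_mem_lattice
  obtain ⟨z, hz⟩ : ∃ z, z ∉ L.lattice := by
    obtain ⟨z, hz, -⟩ := exists_wp_eq L 0
    exact ⟨z, hz⟩
  have hs := sigma_ne_zero L hz
  have e1 := h₁ (z + L.ω₂)
  rw [h₂ z] at e1
  have e2 := h₂ (z + L.ω₁)
  rw [h₁ z] at e2
  have e3 : z + L.ω₂ + L.ω₁ = z + L.ω₁ + L.ω₂ := by ring
  rw [e3, e2] at e1
  have e4 : Complex.exp (eta L L.ω₂ * (z + L.ω₁)) * Complex.exp (eta L L.ω₁ * z) =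
      Complex.exp (eta L L.ω₁ * (z + L.ω₂)) * Complex.exp (eta L L.ω₂ * z) := by
    apply mul_left_cancel₀ (mul_ne_zero (mul_ne_zero hC₁ hC₂) hs)
    linear_combination e1
  rw [← Complex.exp_add, ← Complex.exp_add, Complex.exp_eq_exp_iff_exists_int] at e4
  obtain ⟨n, hn⟩ := e4
  have e5 : L.ω₁ * eta L L.ω₂ - L.ω₂ * eta L L.ω₁ = n * (2 * Real.pi * Complex.I) := by
    linear_combination hn
  refine ⟨n, ?_, e5⟩
  rintro rfl
  apply Pool.Agent.TH818.AP.legendre_ne L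
  rw [Int.cast_zero, zero_mul] at e5
  linear_combination -e5

/-- logarithms -/
theorem log_ind {ι : Type} [Fintype ι] {u : ι → ℂ} (hu : ∀ i, IsAlgebraic ℚ (Complex.exp (u i)))
    (hind : LinearIndependent ℚ (fun x : Option ι => x.elim (2 * Real.pi * Complex.I) u))
    (β : ι → ℂ) (hβ : ∀ i, IsAlgebraic ℚ (β i)) (v : ℂ) (hv : IsAlgebraic ℚ v)
    (h0 : IsAlgebraic ℚ (∑ i, β i * u i + v * (2 * Real.pi * Complex.I))) : β = 0 ∧ v = 0 := by
  obtain ⟨-, h4⟩ := Pool.Agent.H297R2.baker_inhom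
    (fun x : Option ι => x.elim (2 * Real.pi * Complex.I) u)
    (by
      rintro (_ | i)
      · simp only [Option.elim]
        rw [Complex.exp_two_pi_mul_I]
        exact isAlgebraic_one
      · exact hu i) hind
    (-(∑ i, β i * u i + v * (2 * Real.pi * Complex.I))) h0.neg
    (fun x => x.elim v β)
    (by
      rintro (_ | i)
      · exact hv
      · exact hβ i)
    (by
      rw [Fintype.sum_option]
      simp only [Option.elim]
      ring)
  exact ⟨funext fun i => h4 (some i), h4 none⟩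

end Pool.Agent.Q50.EM
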