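import Pool.Agent.Q50.EM.Trn
import Pool.Agent.Q50.EM.Tra

/-!
# The theorem for elliptic curves
-/

open Matrix
open scoped PeriodPair

namespace Pool.Agent.Q50.EM

set_option maxHeartbeats 4000000
set_option synthInstance.maxHeartbeats 400000

open H667R3 Pool.Agent.W245.EB

/-- The field of algebraic numbers. -/
noncomputable abbrev QA : IntermediateField ℚ ℂ := algebraicClosure ℚ ℂ

instance : IsAlgClosed QA := (algebraicClosure.isAlgClosure ℚ ℂ).isAlgClosed

theorem alg_coe (x : QA) : IsAlgebraic ℚ (algebraMap QA ℂ x) := mem_algebraicClosure_iff.1 x.2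

variable {r s t : ℕ}

/-- a torsor under the group -/
theorem onTor (K : Type) [Field K] [Algebra K ℂ] (D : Dat r s t) :
    OnTor K (motGroup r s t) D.per := by
  have : CharZero K := (algebraMap K ℂ).charZero
  have hm : (D.m : ℂ) ≠ 0 := Int.cast_ne_zero.2 D.hm
  have hmK : (D.m : K) ≠ 0 := Int.cast_ne_zero.2 D.hm
  have hTT := D.hT
  set h : Matrix (Ix r s t) (Ix r s t) ℂ :=
    block 1 D.Ω D.P0 ((D.m : ℂ) • D.C) ((D.m : ℂ) • (D.Ω * D.B)) D.Ω.det with hh
  have hdet : h.det ≠ 0 := by
    rw [hh, det_block]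
    exact mul_ne_zero D.det_ne (pow_ne_zero _ D.det_ne)
  have hone : ∀ (F : Type) [Field F], (block 1 1 0 0 0 1 : Matrix (Ix r s t) (Ix r s t) F) = 1 := by
    intro F _
    ext a b
    rcases a with a | a | a | a <;> rcases b with b | b | b | b <;>
      simp [block, fromBlocks, fromCols, Matrix.one_apply]
  have h1 : (block 1 1 0 0 0 (D.m : K)⁻¹ : Matrix (Ix r s t) (Ix r s t) K) *
      block 1 1 0 0 0 (D.m : K) = 1 := by
    rw [block_mul, inv_mul_cancel₀ hmK]
    rw [← hone K]
    simp
  have h2 : (block 1 1 0 0 0 (D.m : K) : Matrix (Ix r s t) (Ix r s t) K) *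
      block 1 1 0 0 0 (D.m : K)⁻¹ = 1 := by
    rw [block_mul, mul_inv_cancel₀ hmK]
    rw [← hone K]
    simp
  refine ⟨Matrix.GeneralLinearGroup.mk'' h (isUnit_iff_ne_zero.2 hdet), ⟨D.Ω, D.P0, _, _, rfl⟩,
    ⟨block 1 1 0 0 0 (D.m : K)⁻¹, block 1 1 0 0 0 (D.m : K), h1, h2⟩, ?_⟩
  change D.per = h * (block 1 1 0 0 0 (D.m : K)⁻¹ : Matrix (Ix r s t) (Ix r s t) K).map
    (algebraMap K ℂ)
  have h3 : (block 1 1 0 0 0 (D.m : K)⁻¹ : Matrix (Ix r s t) (Ix r s t) K).map
      (algebraMap K ℂ) = block 1 1 0 0 0 (D.m : ℂ)⁻¹ := by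
    ext a b
    rcases a with a | a | a | a <;> rcases b with b | b | b | b <;>
      simp [block, fromBlocks, fromCols, Matrix.one_apply] <;> split_ifs <;> simp
  rw [h3, hh, block_mul, Dat.per, D.det]
  congr 1
  · simp
  · simp
  · simp
  · rw [smul_smul, inv_mul_cancel₀ hm]
    ext a b
    rcases b with b | b <;> simp [Matrix.mul_apply, fromCols]
  · rw [smul_smul, inv_mul_cancel₀ hm]
    simp
  · field_simp

/-- The data of an elliptic curve with points. -/
noncomputable def ellDat (L : PeriodPair) (m : ℤ) (hm : m ≠ 0)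
    (hleg : L.ω₁ * eta L L.ω₂ - L.ω₂ * eta L L.ω₁ = m * (2 * Real.pi * Complex.I))
    (p : Fin r → ℂ) (q : Fin s → ℂ) (u : Fin r → Fin t → ℂ) (C : Matrix (Fin r) (Fin s) ℂ) :
    Dat r s t where
  Ω := !![L.ω₁, eta L L.ω₁; L.ω₂, eta L L.ω₂]
  P0 := Matrix.of fun i => ![p i, zeta L (p i)]
  B := Matrix.of fun a j => ![-zeta L (q j), q j] a
  C := fromCols C (Matrix.of u)
  T := 2 * Real.pi * Complex.I
  m := m
  hm := hm
  hT := Complex.two_pi_I_ne_zero
  det := by
    rw [Matrix.det_fin_two_of]
    linear_combination hleg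

theorem ell_tr (L : PeriodPair) (h2 : IsAlgebraic ℚ L.g₂) (h3 : IsAlgebraic ℚ L.g₃) (hE : NoCM L)
    (m : ℤ) (hm : m ≠ 0)
    (hleg : L.ω₁ * eta L L.ω₂ - L.ω₂ * eta L L.ω₁ = m * (2 * Real.pi * Complex.I))
    (p : Fin r → ℂ) (q : Fin s → ℂ) (hp : ∀ i, IsAlgebraic ℚ (℘[L] (p i)))
    (hq : ∀ j, IsAlgebraic ℚ (℘[L] (q j)))
    (hind : LinearIndependent ℚ (Sum.elim ![L.ω₁, L.ω₂] (Sum.elim p q)))
    (u : Fin r → Fin t → ℂ) (hu : ∀ i k, IsAlgebraic ℚ (Complex.exp (u i k)))
    (hindu : LinearIndependent ℚ (fun x : Option (Fin r × Fin t) =>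
      x.elim (2 * Real.pi * Complex.I) fun y => u y.1 y.2))
    (C : Matrix (Fin r) (Fin s) ℂ) : Tr QA (ellDat L m hm hleg p q u C) where
  h1 := by
    intro x y a b hxy h0
    have hω : LinearIndependent ℚ ![L.ω₁, L.ω₂] := hind.comp Sum.inl Sum.inl_injective
    have hinj : Function.Injective (algebraMap QA ℂ) := (algebraMap QA ℂ).injective
    obtain ⟨h4, h5⟩ := per_ind h2 h3 hE hω (alg_coe x) (alg_coe y) (alg_coe a) (alg_coe b)
      (by
        rcases hxy with h | h
        · exact Or.inl ((map_ne_zero _).2 h)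
        · exact Or.inr ((map_ne_zero _).2 h)) h0
    exact ⟨hinj (by rw [h4, map_zero]), hinj (by rw [h5, map_zero])⟩
  h2 := by
    intro w v c h0
    have hinj : Function.Injective (algebraMap QA ℂ) := (algebraMap QA ℂ).injective
    have hmC : (m : ℂ) ≠ 0 := Int.cast_ne_zero.2 hm
    have h4 := ell_ind h2 h3 hE (l := Sum.elim ![L.ω₁, L.ω₂] (Sum.elim p q))
      (by
        rintro (i | i | i)
        · fin_cases i
          · exact Or.inl L.ω₁_mem_lattice
          · exact Or.inl L.ω₂_mem_lattice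
        · exact Or.inr (hp i)
        · exact Or.inr (hq i)) hind
      (Sum.elim (fun a => -algebraMap QA ℂ (v a)) (Sum.elim (fun i => algebraMap QA ℂ (w (Sum.inl i)))
        (fun j => m * algebraMap QA ℂ (w (Sum.inr j)))))
      (by
        rintro (i | i | i)
        · exact (alg_coe _).neg
        · exact alg_coe _
        · exact (isAlgebraic_intCast m).mul (alg_coe _))
      (by
        have h5 : ∑ i, Sum.elim (fun a => -algebraMap QA ℂ (v a))
            (Sum.elim (fun i => algebraMap QA ℂ (w (Sum.inl i)))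
            (fun j => m * algebraMap QA ℂ (w (Sum.inr j)))) i *
            Sum.elim ![L.ω₁, L.ω₂] (Sum.elim p q) i = algebraMap QA ℂ c := by
          rw [← h0, Fintype.sum_sum_type, Fintype.sum_sum_type, Fintype.sum_sum_type]
          simp only [Sum.elim_inl, Sum.elim_inr, Dat.R, ellDat, Matrix.of_apply, Fin.sum_univ_two,
            Matrix.cons_val_zero, Matrix.cons_val_one, Matrix.cons_val', Matrix.cons_val_fin_one]
          have h6 : ∀ j, (m : ℂ) * algebraMap QA ℂ (w (Sum.inr j)) * q j =
              algebraMap QA ℂ (w (Sum.inr j)) * (m * q j) := fun j => by ring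
          simp only [h6]
          ring
        rw [h5]
        exact alg_coe c)
    ext i
    rcases i with i | j
    · have := congrFun h4 (Sum.inr (Sum.inl i))
      simp only [Sum.elim_inl, Sum.elim_inr, Pi.zero_apply] at this
      have h7 : w (Sum.inl i) = 0 := hinj (by rw [this, map_zero])
      rw [h7]
      rfl
    · have := congrFun h4 (Sum.inr (Sum.inr j))
      simp only [Sum.elim_inr, Pi.zero_apply] at this
      rcases mul_eq_zero.1 this with h8 | h8
      · exact absurd h8 hmC
      · have h7 : w (Sum.inr j) = 0 := hinj (by rw [h8, map_zero])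
        rw [h7]
        rfl
  h3 := by
    intro β v c h0
    have hinj : Function.Injective (algebraMap QA ℂ) := (algebraMap QA ℂ).injective
    obtain ⟨h4, -⟩ := log_ind (u := fun y : Fin r × Fin t => u y.1 y.2) (fun y => hu _ _) hindu
      (fun y => algebraMap QA ℂ (β y.1 y.2)) (fun y => alg_coe _) (-algebraMap QA ℂ v)
      (alg_coe _).neg (by
        have h5 : ∑ y : Fin r × Fin t, algebraMap QA ℂ (β y.1 y.2) * u y.1 y.2 +
            -algebraMap QA ℂ v * (2 * Real.pi * Complex.I) = algebraMap QA ℂ c := by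
          rw [← h0, Fintype.sum_prod_type]
          simp only [ellDat, fromCols, Matrix.of_apply, Sum.elim_inr]
          ring
        rw [h5]
        exact alg_coe c)
    ext i k
    have := congrFun h4 (i, k)
    simp only [Pi.zero_apply] at this
    have h7 : β i k = 0 := hinj (by rw [this, map_zero])
    rw [h7]
    rfl
  h4 := by
    intro hT
    have h5 : ∃ c : QA, algebraMap QA ℂ c = 2 * Real.pi * Complex.I := by
      have h6 : IsAlgebraic QA (2 * Real.pi * Complex.I : ℂ) := hT
      have : Algebra.IsAlgebraic ℚ QA := (algebraicClosure.isAlgClosure ℚ ℂ).isAlgebraic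
      have h7 : IsAlgebraic ℚ (2 * Real.pi * Complex.I : ℂ) := h6.restrictScalars ℚ
      exact ⟨⟨_, mem_algebraicClosure_iff.2 h7⟩, rfl⟩
    obtain ⟨c, hc⟩ := h5
    have h8 := log_ind (ι := Empty) (u := fun x => x.elim) (fun x => x.elim)
      (by
        have h9 : LinearIndependent ℚ (fun _ : Unit => (2 * Real.pi * Complex.I : ℂ)) :=
          hindu.comp (fun _ => none) (fun _ _ _ => rfl)
        have h10 := h9.comp (fun _ : Option Empty => ()) (by
          rintro (_ | x) (_ | y) _
          · rfl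
          · exact y.elim
          · exact x.elim
          · exact x.elim)
        convert h10 using 1
        ext x
        rcases x with _ | x
        · rfl
        · exact x.elim)
      (fun x => x.elim) (fun x => x.elim) 1 isAlgebraic_one (by
        rw [← hc]
        simpa using alg_coe c)
    exact one_ne_zero h8.2

end Pool.Agent.Q50.EM
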