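import Pool.Agent.Q50.EM.Lin
import Pool.Agent.Q50.LR.Defs

/-!
# The group and its algebraicity; general indices
-/

open Matrix

namespace Pool.Agent.Q50.EM

set_option maxHeartbeats 4000000
set_option synthInstance.maxHeartbeats 400000

/-- The group `H` of invertible complex matrices is an algebraic group over `K`: it is the set of the
common zeros of polynomials in the entries with coefficients in `K`. -/
def IsAlgGroup (K : Type) [Field K] [Algebra K ℂ] {I : Type} [Fintype I] [DecidableEq I]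
    (H : Subgroup (GL I ℂ)) : Prop :=
  ∃ S : Set (MvPolynomial (I × I) K), ∀ g : GL I ℂ,
    g ∈ H ↔ ∀ f ∈ S, MvPolynomial.aeval (fun p : I × I => g p.1 p.2) f = 0

/-- The matrix `P` lies on a torsor under `H` over the algebraically closed field `K`: it is the
product of an element of `H` and of an invertible matrix with entries in `K`. -/
def OnTor (K : Type) [Field K] [Algebra K ℂ] {I : Type} [Fintype I] [DecidableEq I]
    (H : Subgroup (GL I ℂ)) (P : Matrix I I ℂ) : Prop :=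
  ∃ h ∈ H, ∃ A : GL I K,
    P = (h : Matrix I I ℂ) * (A : Matrix I I K).map (algebraMap K ℂ)

variable {r s t : ℕ}

theorem det_block (g : Matrix (Fin 2) (Fin 2) ℂ) (X : Matrix (Fin r) (Fin 2) ℂ)
    (Y : Matrix (Fin r) (Fin s ⊕ Fin t) ℂ) (Z : Matrix (Fin 2) (Fin s) ℂ) (d : ℂ) :
    (block 1 g X Y Z d : Matrix (Ix r s t) (Ix r s t) ℂ).det = g.det * d ^ (s + t) := by
  rw [block, Matrix.det_fromBlocks_zero₂₁, Matrix.det_fromBlocks_zero₂₁, Matrix.det_one, one_mul,
    Matrix.det_smul, Matrix.det_one, mul_one]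
  simp

/-- The group of the matrices with rows `(1, X, Y)`, `(0, g, (Z, 0))`, `(0, 0, det g)`. -/
def motGroup (r s t : ℕ) : Subgroup (GL (Ix r s t) ℂ) where
  carrier := {M | ∃ g X Y Z, (M : Matrix (Ix r s t) (Ix r s t) ℂ) = block 1 g X Y Z g.det}
  one_mem' := by
    refine ⟨1, 0, 0, 0, ?_⟩
    rw [Matrix.det_one]
    ext a b
    rcases a with a | a | a | a <;> rcases b with b | b | b | b <;>
      simp [block, fromBlocks, fromCols, Matrix.one_apply]
  mul_mem' := by
    rintro M M' ⟨g, X, Y, Z, h⟩ ⟨g', X', Y', Z', h'⟩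
    refine ⟨g * g', X' + X * g', Y' + X * fromCols Z' 0 + g'.det • Y, g * Z' + g'.det • Z, ?_⟩
    rw [Units.val_mul, h, h', block_mul, Matrix.det_mul]
    simp
  inv_mem' := by
    rintro M ⟨g, X, Y, Z, h⟩
    have hdet : g.det ≠ 0 := by
      intro h0
      have h1 : (M : Matrix (Ix r s t) (Ix r s t) ℂ).det ≠ 0 := by
        have := M.isUnit.map (Matrix.detMonoidHom (n := Ix r s t) (R := ℂ))
        exact this.ne_zero
      rw [h, det_block, h0, zero_mul] at h1
      exact h1 rfl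
    have hg : g * g⁻¹ = 1 := Matrix.mul_nonsing_inv _ (isUnit_iff_ne_zero.2 hdet)
    have hdi : (g⁻¹).det = (g.det)⁻¹ := by
      rw [Matrix.det_nonsing_inv, Ring.inverse_eq_inv']
    set Z' : Matrix (Fin 2) (Fin s) ℂ := -((g.det)⁻¹ • (g⁻¹ * Z)) with hZ'
    refine ⟨g⁻¹, -(X * g⁻¹), -(X * fromCols Z' 0) - (g.det)⁻¹ • Y, Z', ?_⟩
    have h1 : (M : Matrix (Ix r s t) (Ix r s t) ℂ) *
        block 1 g⁻¹ (-(X * g⁻¹)) (-(X * fromCols Z' 0) - (g.det)⁻¹ • Y) Z' (g.det)⁻¹ = 1 := by
      have e1 : g * Z' + (g.det)⁻¹ • Z = 0 := by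
        rw [hZ', Matrix.mul_neg, Matrix.mul_smul, ← Matrix.mul_assoc, hg, Matrix.one_mul,
          neg_add_cancel]
      rw [h, block_mul, hg, e1, mul_inv_cancel₀ hdet]
      ext a b
      rcases a with a | a | a | a <;> rcases b with b | b | b | b <;>
        simp [block, fromBlocks, fromCols, Matrix.one_apply] <;> try ring
    rw [hdi]
    have h2 : ((M⁻¹ : GL (Ix r s t) ℂ) : Matrix (Ix r s t) (Ix r s t) ℂ) *
        (M : Matrix (Ix r s t) (Ix r s t) ℂ) = 1 := by
      rw [← Units.val_mul, inv_mul_cancel, Units.val_one]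
    calc ((M⁻¹ : GL (Ix r s t) ℂ) : Matrix (Ix r s t) (Ix r s t) ℂ) =
        ((M⁻¹ : GL (Ix r s t) ℂ) : Matrix (Ix r s t) (Ix r s t) ℂ) *
        ((M : Matrix (Ix r s t) (Ix r s t) ℂ) *
        block 1 g⁻¹ (-(X * g⁻¹)) (-(X * fromCols Z' 0) - (g.det)⁻¹ • Y) Z' (g.det)⁻¹) := by
          rw [h1, mul_one]
      _ = _ := by rw [← mul_assoc, h2, one_mul]

theorem mem_motGroup {M : GL (Ix r s t) ℂ} : M ∈ motGroup r s t ↔
    ∃ g X Y Z, (M : Matrix (Ix r s t) (Ix r s t) ℂ) = block 1 g X Y Z g.det := Iff.rfl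

/-- the equations of the group -/
theorem mem_motGroup_iff {M : GL (Ix r s t) ℂ} : M ∈ motGroup r s t ↔
    (∀ i j, M (Sum.inl i) (Sum.inl j) = if i = j then 1 else 0) ∧
    (∀ x j, M (Sum.inr x) (Sum.inl j) = 0) ∧
    (∀ x a, M (Sum.inr (Sum.inr x)) (Sum.inr (Sum.inl a)) = 0) ∧
    (∀ a k, M (Sum.inr (Sum.inl a)) (Sum.inr (Sum.inr (Sum.inr k))) = 0) ∧
    (∀ x y, M (Sum.inr (Sum.inr x)) (Sum.inr (Sum.inr y)) =
      if x = y then M (Sum.inr (Sum.inl 0)) (Sum.inr (Sum.inl 0)) *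
        M (Sum.inr (Sum.inl 1)) (Sum.inr (Sum.inl 1)) -
        M (Sum.inr (Sum.inl 0)) (Sum.inr (Sum.inl 1)) *
        M (Sum.inr (Sum.inl 1)) (Sum.inr (Sum.inl 0)) else 0) := by
  constructor
  · rintro ⟨g, X, Y, Z, h⟩
    refine ⟨?_, ?_, ?_, ?_, ?_⟩
    · intro i j
      rw [h]
      simp [block, fromBlocks, Matrix.one_apply]
    · intro x j
      rw [h]
      simp [block, fromBlocks]
    · intro x j
      rw [h]
      simp [block, fromBlocks]
    · intro x j
      rw [h]
      simp [block, fromBlocks, fromCols]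
    · intro x y
      rw [h]
      simp [block, fromBlocks, Matrix.one_apply, Matrix.det_fin_two]
  · rintro ⟨h1, h2, h3, h4, h5⟩
    refine ⟨Matrix.of fun a b => M (Sum.inr (Sum.inl a)) (Sum.inr (Sum.inl b)),
      Matrix.of fun i b => M (Sum.inl i) (Sum.inr (Sum.inl b)),
      Matrix.of fun i b => M (Sum.inl i) (Sum.inr (Sum.inr b)),
      Matrix.of fun a b => M (Sum.inr (Sum.inl a)) (Sum.inr (Sum.inr (Sum.inl b))), ?_⟩
    ext a b
    rcases a with a | a | a <;> rcases b with b | b | b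
    · rw [h1]
      simp [block, fromBlocks, Matrix.one_apply]
    · simp [block, fromBlocks, fromCols]
    · simp [block, fromBlocks, fromCols]
    · rw [h2]
      simp [block, fromBlocks]
    · simp [block, fromBlocks]
    · rcases b with b | b
      · simp [block, fromBlocks, fromCols]
      · rw [h4]
        simp [block, fromBlocks, fromCols]
    · rw [h2]
      simp [block, fromBlocks]
    · rw [h3]
      simp [block, fromBlocks]
    · rw [h5]
      simp [block, fromBlocks, Matrix.one_apply, Matrix.det_fin_two]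

/-- The group is algebraic. -/
theorem motGroup_alg (K : Type) [Field K] [Algebra K ℂ] : IsAlgGroup K (motGroup r s t) := by
  classical
  let x : Ix r s t → Ix r s t → MvPolynomial (Ix r s t × Ix r s t) K := fun a b =>
    MvPolynomial.X (a, b)
  let D : MvPolynomial (Ix r s t × Ix r s t) K :=
    x (Sum.inr (Sum.inl 0)) (Sum.inr (Sum.inl 0)) * x (Sum.inr (Sum.inl 1)) (Sum.inr (Sum.inl 1)) -
    x (Sum.inr (Sum.inl 0)) (Sum.inr (Sum.inl 1)) * x (Sum.inr (Sum.inl 1)) (Sum.inr (Sum.inl 0))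
  refine ⟨{f | (∃ i j, f = x (Sum.inl i) (Sum.inl j) - if i = j then 1 else 0) ∨
    (∃ y j, f = x (Sum.inr y) (Sum.inl j)) ∨
    (∃ y a, f = x (Sum.inr (Sum.inr y)) (Sum.inr (Sum.inl a))) ∨
    (∃ a k, f = x (Sum.inr (Sum.inl a)) (Sum.inr (Sum.inr (Sum.inr k)))) ∨
    (∃ y z, f = x (Sum.inr (Sum.inr y)) (Sum.inr (Sum.inr z)) - if y = z then D else 0)}, ?_⟩
  intro g
  rw [mem_motGroup_iff]
  constructor
  · rintro ⟨h1, h2, h3, h4, h5⟩ f (⟨i, j, rfl⟩ | ⟨y, j, rfl⟩ | ⟨y, j, rfl⟩ | ⟨y, j, rfl⟩ | ⟨y, z, rfl⟩)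
    · simp only [x, map_sub, MvPolynomial.aeval_X, h1]
      split_ifs <;> simp
    · simp only [x, MvPolynomial.aeval_X, h2]
    · simp only [x, MvPolynomial.aeval_X, h3]
    · simp only [x, MvPolynomial.aeval_X, h4]
    · simp only [x, map_sub, MvPolynomial.aeval_X, h5]
      split_ifs <;> simp [D, x]
  · intro h
    refine ⟨?_, ?_, ?_, ?_, ?_⟩
    · intro i j
      have := h _ (Or.inl ⟨i, j, rfl⟩)
      simp only [x, map_sub, MvPolynomial.aeval_X] at this
      rw [sub_eq_zero] at this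
      rw [this]
      split_ifs <;> simp
    · intro y j
      have := h _ (Or.inr (Or.inl ⟨y, j, rfl⟩))
      simpa only [x, MvPolynomial.aeval_X] using this
    · intro y j
      have := h _ (Or.inr (Or.inr (Or.inl ⟨y, j, rfl⟩)))
      simpa only [x, MvPolynomial.aeval_X] using this
    · intro y j
      have := h _ (Or.inr (Or.inr (Or.inr (Or.inl ⟨y, j, rfl⟩))))
      simpa only [x, MvPolynomial.aeval_X] using this
    · intro y z
      have := h _ (Or.inr (Or.inr (Or.inr (Or.inr ⟨y, z, rfl⟩))))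
      simp only [x, map_sub, MvPolynomial.aeval_X] at this
      rw [sub_eq_zero] at this
      rw [this]
      split_ifs <;> simp [D, x]

end Pool.Agent.Q50.EM
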