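import Pool.Agent.Q50.EM.Defs

/-!
# Lie algebras of block matrices
-/

open Matrix

namespace Pool.Agent.Q50.EM

set_option maxHeartbeats 4000000
set_option synthInstance.maxHeartbeats 400000

variable {F : Type} [Field F] {r s t : ℕ}

/-- the middle part -/
def gP : Matrix (Ix r s t) (Ix r s t) F →ₗ[F] Matrix (Fin 2) (Fin 2) F where
  toFun M := Matrix.of fun a b => M (Sum.inr (Sum.inl a)) (Sum.inr (Sum.inl b))
  map_add' _ _ := rfl
  map_smul' _ _ := rfl

/-- the rows `X_i` and `Z_j^♯` -/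
def nP : Matrix (Ix r s t) (Ix r s t) F →ₗ[F] Matrix (Fin r ⊕ Fin s) (Fin 2) F where
  toFun M := Matrix.of fun w a => Sum.elim (fun i => M (Sum.inl i) (Sum.inr (Sum.inl a)))
    (fun j => ![M (Sum.inr (Sum.inl 1)) (Sum.inr (Sum.inr (Sum.inl j))),
      -M (Sum.inr (Sum.inl 0)) (Sum.inr (Sum.inr (Sum.inl j)))] a) w
  map_add' M M' := by
    ext w a
    rcases w with i | j
    · rfl
    · fin_cases a <;> simp [add_comm]
  map_smul' c M := by
    ext w a
    rcases w with i | j
    · rfl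
    · fin_cases a <;> simp

/-- the corner -/
def yP : Matrix (Ix r s t) (Ix r s t) F →ₗ[F] Matrix (Fin r) (Fin s ⊕ Fin t) F where
  toFun M := Matrix.of fun i k => M (Sum.inl i) (Sum.inr (Sum.inr k))
  map_add' _ _ := rfl
  map_smul' _ _ := rfl

theorem gP_block (g X Y Z) (d : F) :
    gP (block (0 : Matrix (Fin r) (Fin r) F) g X Y (Z : Matrix (Fin 2) (Fin s) F) d :
      Matrix (Ix r s t) (Ix r s t) F) = g := by
  ext a b; rfl

theorem nP_block (g X Y Z) (d : F) :
    nP (block (0 : Matrix (Fin r) (Fin r) F) g X Y (Z : Matrix (Fin 2) (Fin s) F) d :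
      Matrix (Ix r s t) (Ix r s t) F) =
      Matrix.of (fun w a => Sum.elim (fun i => X i a) (fun j => ![Z 1 j, -Z 0 j] a) w) := by
  ext w a
  rcases w with i | j
  · simp [nP, block, fromBlocks, fromCols]
  · fin_cases a <;> simp [nP, block, fromBlocks, fromCols]

theorem yP_block (g X Y Z) (d : F) :
    yP (block (0 : Matrix (Fin r) (Fin r) F) g X Y (Z : Matrix (Fin 2) (Fin s) F) d :
      Matrix (Ix r s t) (Ix r s t) F) = Y := by
  ext a b; rfl

theorem block_mul (g g' : Matrix (Fin 2) (Fin 2) F) (X X' : Matrix (Fin r) (Fin 2) F)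
    (Y Y' : Matrix (Fin r) (Fin s ⊕ Fin t) F) (Z Z' : Matrix (Fin 2) (Fin s) F) (d d' : F)
    (e e' : Matrix (Fin r) (Fin r) F) :
    block e g X Y Z d * block e' g' X' Y' Z' d' =
      block (e * e') (g * g') (e * X' + X * g')
        (e * Y' + X * fromCols Z' 0 + d' • Y) (g * Z' + d' • Z) (d * d') := by
  ext i j
  rcases i with i | i | i | i <;> rcases j with j | j | j | j <;>
    simp [block, fromCols, fromBlocks, Matrix.mul_apply, Matrix.one_apply, mul_comm,
      Fintype.sum_sum_type, add_assoc]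

/-- the elements of `lieP` -/
theorem eq_block {M : Matrix (Ix r s t) (Ix r s t) F} (hM : M ∈ lieP F r s t)
    (hg : gP M = 0) (hn : nP M = 0) : M = block 0 0 0 (yP M) 0 0 := by
  obtain ⟨g, X, Y, Z, rfl⟩ := hM
  rw [gP_block] at hg
  rw [nP_block] at hn
  have hX : X = 0 := by
    ext i a
    have := congrFun (congrFun hn (Sum.inl i)) a
    simpa using this
  have hZ : Z = 0 := by
    ext a j
    have h0 := congrFun (congrFun hn (Sum.inr j)) 0
    have h1 := congrFun (congrFun hn (Sum.inr j)) 1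
    fin_cases a
    · simpa using h1
    · simpa using h0
  rw [yP_block, hg, hX, hZ]
  simp

theorem gP_bracket {x x' : Matrix (Ix r s t) (Ix r s t) F} (hx : x ∈ lieP F r s t)
    (hx' : x' ∈ lieP F r s t) : gP (x * x' - x' * x) = gP x * gP x' - gP x' * gP x := by
  obtain ⟨g, X, Y, Z, rfl⟩ := hx
  obtain ⟨g', X', Y', Z', rfl⟩ := hx'
  rw [map_sub, block_mul, block_mul, mul_zero, gP_block, gP_block, gP_block, gP_block]

theorem nP_bracket {x x' : Matrix (Ix r s t) (Ix r s t) F} (hx : x ∈ lieP F r s t)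
    (hx' : x' ∈ lieP F r s t) : nP (x * x' - x' * x) = nP x * gP x' - nP x' * gP x := by
  obtain ⟨g, X, Y, Z, rfl⟩ := hx
  obtain ⟨g', X', Y', Z', rfl⟩ := hx'
  rw [map_sub, block_mul, block_mul, mul_zero, nP_block, nP_block, nP_block, nP_block, gP_block,
    gP_block]
  ext w a
  rcases w with i | j
  · simp [Matrix.mul_apply]
  · fin_cases a <;>
    · simp [Matrix.mul_apply, Matrix.trace, Fin.sum_univ_two]
      ring

theorem yP_bracket {x x' : Matrix (Ix r s t) (Ix r s t) F} (hx : x ∈ lieP F r s t)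
    (hx' : x' ∈ lieP F r s t) (i : Fin r) (k : Fin t) :
    yP (x * x' - x' * x) i (Sum.inr k) =
      (gP x').trace * yP x i (Sum.inr k) - (gP x).trace * yP x' i (Sum.inr k) := by
  obtain ⟨g, X, Y, Z, rfl⟩ := hx
  obtain ⟨g', X', Y', Z', rfl⟩ := hx'
  rw [map_sub, block_mul, block_mul, mul_zero, yP_block, yP_block, yP_block, yP_block, gP_block,
    gP_block]
  simp [Matrix.mul_apply, fromCols]

end Pool.Agent.Q50.EM
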