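import Pool.Agent.Q50.EM.Lin

/-!
# Lie algebras of block matrices: the criterion
-/

open Matrix

namespace Pool.Agent.Q50.EM

set_option maxHeartbeats 4000000
set_option synthInstance.maxHeartbeats 400000

variable {F : Type} [Field F] {r s t : ℕ}

/-- The hypotheses on the Lie algebra. -/
structure Good (L : Submodule F (Matrix (Ix r s t) (Ix r s t) F)) : Prop where
  le : L ≤ lieP F r s t
  br : ∀ x ∈ L, ∀ y ∈ L, x * y - y * x ∈ L
  surj : ∀ g : Matrix (Fin 2) (Fin 2) F, ∃ x ∈ L, gP x = g
  pts : ∀ (w : Fin r ⊕ Fin s → F) (v : Fin 2 → F),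
    (∀ x ∈ L, w ᵥ* nP x = v ᵥ* gP x) → w = 0
  logs : ∀ (β : Matrix (Fin r) (Fin t) F) (v : F),
    (∀ x ∈ L, ∑ i, ∑ k, β i k * yP x i (Sum.inr k) = v * (gP x).trace) → β = 0

variable {L : Submodule F (Matrix (Ix r s t) (Ix r s t) F)}

theorem exists_dot {I : Type} [Fintype I] [DecidableEq I] (C : Submodule F (I → F)) (hC : C ≠ ⊤) :
    ∃ w : I → F, w ≠ 0 ∧ ∀ c ∈ C, w ⬝ᵥ c = 0 := by
  obtain ⟨f, hf, hCf⟩ := C.exists_le_ker_of_lt_top (lt_top_iff_ne_top.2 hC)
  have hrep : ∀ c : I → F, (fun i => f (Pi.single i 1)) ⬝ᵥ c = f c := by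
    intro c
    rw [dotProduct]
    conv_rhs => rw [← Finset.univ_sum_single c, map_sum]
    refine Finset.sum_congr rfl fun i _ => ?_
    rw [show (Pi.single i (c i) : I → F) = c i • Pi.single i 1 by
      rw [← Pi.single_smul, smul_eq_mul, mul_one], map_smul, smul_eq_mul, mul_comm]
  refine ⟨fun i => f (Pi.single i 1), fun h0 => hf ?_, fun c hc => ?_⟩
  · ext i
    simpa using congrFun h0 i
  · rw [hrep]
    exact hCf hc

/-- the second layer is everything -/
theorem Good.n_surj (h : Good L) (m : Matrix (Fin r ⊕ Fin s) (Fin 2) F) :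
    ∃ x ∈ L, gP x = 0 ∧ nP x = m := by
  classical
  -- right multiplication
  have hmul : ∀ x ∈ L, gP x = 0 → ∀ g : Matrix (Fin 2) (Fin 2) F,
      ∃ y ∈ L, gP y = 0 ∧ nP y = nP x * g := by
    intro x hx hgx g
    obtain ⟨z, hz, hgz⟩ := h.surj g
    refine ⟨x * z - z * x, h.br x hx z hz, ?_, ?_⟩
    · rw [gP_bracket (h.le hx) (h.le hz), hgx, zero_mul, mul_zero, sub_zero]
    · rw [nP_bracket (h.le hx) (h.le hz), hgx, hgz, Matrix.mul_zero, sub_zero]
  -- the columns
  let C : Submodule F (Fin r ⊕ Fin s → F) :=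
    { carrier := {c | ∃ x ∈ L, gP x = 0 ∧ nP x = vecMulVec c (Pi.single 0 1)}
      zero_mem' := ⟨0, L.zero_mem, map_zero _, by rw [map_zero, zero_vecMulVec]⟩
      add_mem' := by
        rintro a b ⟨x, hx, hx0, hxa⟩ ⟨y, hy, hy0, hyb⟩
        exact ⟨x + y, L.add_mem hx hy, by rw [map_add, hx0, hy0, add_zero],
          by rw [map_add, hxa, hyb, add_vecMulVec]⟩
      smul_mem' := by
        rintro c a ⟨x, hx, hx0, hxa⟩
        exact ⟨c • x, L.smul_mem c hx, by rw [map_smul, hx0, smul_zero],
          by rw [map_smul, hxa, smul_vecMulVec]⟩ }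
  have hcol : ∀ x ∈ L, gP x = 0 → ∀ a, (fun w => nP x w a) ∈ C := by
    intro x hx hgx a
    obtain ⟨y, hy, hy0, hyn⟩ := hmul x hx hgx (Matrix.single a 0 1)
    refine ⟨y, hy, hy0, ?_⟩
    rw [hyn]
    ext w b
    simp only [Matrix.mul_apply, Matrix.single_apply, vecMulVec_apply, Pi.single_apply]
    rw [Finset.sum_eq_single a]
    · by_cases hb : b = 0
      · simp [hb]
      · simp [hb, Ne.symm hb]
    · intro j _ hj
      simp [Ne.symm hj]
    · intro ha
      exact absurd (Finset.mem_univ _) ha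
  have hC : C = ⊤ := by
    by_contra hne
    obtain ⟨w, hw0, hw⟩ := exists_dot C hne
    obtain ⟨h0, hh0, hg0⟩ := h.surj 1
    apply hw0
    apply h.pts w (w ᵥ* nP h0)
    intro x hx
    have h1 := h.br x hx h0 hh0
    have h2 : gP (x * h0 - h0 * x) = 0 := by
      rw [gP_bracket (h.le hx) (h.le hh0), hg0, mul_one, one_mul, sub_self]
    have h3 : w ᵥ* nP (x * h0 - h0 * x) = 0 := by
      ext a
      have := hw _ (hcol _ h1 h2 a)
      simpa [vecMul, dotProduct] using this
    rw [nP_bracket (h.le hx) (h.le hh0), hg0, Matrix.mul_one, vecMul_sub, sub_eq_zero,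
      ← vecMul_vecMul] at h3
    exact h3
  -- every matrix is a sum of columns
  have hsingle : ∀ (c : Fin r ⊕ Fin s → F) (a : Fin 2), ∃ x ∈ L, gP x = 0 ∧
      nP x = vecMulVec c (Pi.single a 1) := by
    intro c a
    have hc : c ∈ C := by rw [hC]; exact Submodule.mem_top
    obtain ⟨x, hx, hx0, hxc⟩ := hc
    obtain ⟨y, hy, hy0, hyn⟩ := hmul x hx hx0 (Matrix.single 0 a 1)
    refine ⟨y, hy, hy0, ?_⟩
    rw [hyn, hxc]
    ext w b
    simp only [Matrix.mul_apply, Matrix.single_apply, vecMulVec_apply, Pi.single_apply,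
      Fin.sum_univ_two]
    by_cases hb : b = a
    · simp [hb]
    · simp [hb, Ne.symm hb]
  obtain ⟨x, hx, hx0, hxn⟩ := hsingle (fun w => m w 0) 0
  obtain ⟨y, hy, hy0, hyn⟩ := hsingle (fun w => m w 1) 1
  refine ⟨x + y, L.add_mem hx hy, by rw [map_add, hx0, hy0, add_zero], ?_⟩
  rw [map_add, hxn, hyn]
  ext w a
  fin_cases a <;> simp [vecMulVec_apply]

/-- the corner, nontrivial extensions -/
theorem Good.corner_s (h : Good L) (i : Fin r) (j : Fin s) :
    (block 0 0 0 (Matrix.single i (Sum.inl j) 1) 0 0 : Matrix (Ix r s t) (Ix r s t) F) ∈ L := by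
  classical
  obtain ⟨x, hx, hx0, hxn⟩ := h.n_surj (Matrix.single (Sum.inl i) 1 1)
  obtain ⟨y, hy, hy0, hyn⟩ := h.n_surj (Matrix.single (Sum.inr j) 0 1)
  have h1 := h.br x hx y hy
  convert h1 using 1
  obtain ⟨g, X, Y, Z, rfl⟩ := h.le hx
  obtain ⟨g', X', Y', Z', rfl⟩ := h.le hy
  rw [gP_block] at hx0 hy0
  subst hx0 hy0
  rw [nP_block] at hxn hyn
  have hX : X = Matrix.single i 1 1 := by
    ext a b
    have := congrFun (congrFun hxn (Sum.inl a)) b
    simpa [Matrix.single_apply] using this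
  have hZ : Z = 0 := by
    ext a b
    have e0 := congrFun (congrFun hxn (Sum.inr b)) 0
    have e1 := congrFun (congrFun hxn (Sum.inr b)) 1
    fin_cases a
    · simpa [Matrix.single_apply] using e1
    · simpa [Matrix.single_apply] using e0
  have hX' : X' = 0 := by
    ext a b
    have := congrFun (congrFun hyn (Sum.inl a)) b
    simpa [Matrix.single_apply] using this
  have hZ' : Z' = Matrix.single 1 j 1 := by
    ext a b
    have e0 := congrFun (congrFun hyn (Sum.inr b)) 0
    have e1 := congrFun (congrFun hyn (Sum.inr b)) 1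
    fin_cases a
    · simpa [Matrix.single_apply] using e1
    · simpa [Matrix.single_apply] using e0
  subst hX hZ hX' hZ'
  rw [block_mul, block_mul]
  ext a b
  rcases a with a | a | a | a <;> rcases b with b | b | b | b <;>
    simp [block, fromBlocks, fromCols, Matrix.mul_apply, Matrix.single_apply]
  by_cases h1 : i = a <;> by_cases h2 : j = b <;> simp [h1, h2]

theorem block_add (Y Y' : Matrix (Fin r) (Fin s ⊕ Fin t) F) :
    (block 0 0 0 (Y + Y') 0 0 : Matrix (Ix r s t) (Ix r s t) F) =
      block 0 0 0 Y 0 0 + block 0 0 0 Y' 0 0 := by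
  ext a b
  rcases a with a | a | a | a <;> rcases b with b | b | b | b <;>
    simp [block, fromBlocks, fromCols]

theorem block_smul (c : F) (Y : Matrix (Fin r) (Fin s ⊕ Fin t) F) :
    (block 0 0 0 (c • Y) 0 0 : Matrix (Ix r s t) (Ix r s t) F) =
      c • block 0 0 0 Y 0 0 := by
  ext a b
  rcases a with a | a | a | a <;> rcases b with b | b | b | b <;>
    simp [block, fromBlocks, fromCols]

/-- the corner as a linear map -/
def cor : Matrix (Fin r) (Fin s ⊕ Fin t) F →ₗ[F] Matrix (Ix r s t) (Ix r s t) F where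
  toFun Y := block 0 0 0 Y 0 0
  map_add' := block_add
  map_smul' := block_smul

theorem cor_apply (Y : Matrix (Fin r) (Fin s ⊕ Fin t) F) :
    (cor Y : Matrix (Ix r s t) (Ix r s t) F) = block 0 0 0 Y 0 0 := rfl

theorem cor_mem (Y : Matrix (Fin r) (Fin s ⊕ Fin t) F)
    (h : ∀ i j, Y i j ≠ 0 → (cor (Matrix.single i j 1) : Matrix (Ix r s t) (Ix r s t) F) ∈ L) :
    cor Y ∈ L := by
  classical
  rw [Matrix.matrix_eq_sum_single Y, map_sum]
  refine L.sum_mem fun i _ => ?_
  rw [map_sum]
  refine L.sum_mem fun j _ => ?_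
  by_cases h0 : Y i j = 0
  · rw [h0, Matrix.single_zero, map_zero]
    exact L.zero_mem
  · rw [show Matrix.single i j (Y i j) = Y i j • Matrix.single i j (1 : F) by
      rw [Matrix.smul_single, smul_eq_mul, mul_one], map_smul]
    exact L.smul_mem _ (h i j h0)

/-- the corner, trivial extensions -/
theorem Good.corner_t (h : Good L) [CharZero F] (i : Fin r) (k : Fin t) :
    (cor (Matrix.single i (Sum.inr k) 1) : Matrix (Ix r s t) (Ix r s t) F) ∈ L := by
  classical
  let ff : (Fin r × Fin t → F) →ₗ[F] Matrix (Fin r) (Fin s ⊕ Fin t) F :=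
    { toFun := fun c => Matrix.of fun i x => Sum.elim (fun _ => 0) (fun k => c (i, k)) x
      map_add' := by
        intro a b
        ext i x
        rcases x with x | x <;> simp
      map_smul' := by
        intro a b
        ext i x
        rcases x with x | x <;> simp }
  let C : Submodule F (Fin r × Fin t → F) := L.comap (cor ∘ₗ ff)
  suffices hC : C = ⊤ by
    have h1 : (Pi.single (i, k) 1 : Fin r × Fin t → F) ∈ C := by rw [hC]; exact Submodule.mem_top
    have h2 : ff (Pi.single (i, k) 1) = Matrix.single i (Sum.inr k) 1 := by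
      ext a x
      rcases x with x | x
      · simp [ff]
      · simp only [ff, LinearMap.coe_mk, AddHom.coe_mk, Matrix.of_apply, Sum.elim_inr,
          Matrix.single_apply, Sum.inr.injEq, Pi.single_apply, Prod.mk.injEq]
        by_cases h3 : i = a
        · subst h3
          by_cases h4 : k = x
          · subst h4
            simp
          · simp [h4, Ne.symm h4]
        · simp [h3, Ne.symm h3]
    have h3 : cor (ff (Pi.single (i, k) 1)) ∈ L := h1
    rwa [h2] at h3
  by_contra hne
  obtain ⟨w, hw0, hw⟩ := exists_dot C hne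
  set Yb : Matrix (Ix r s t) (Ix r s t) F → F := fun x =>
    ∑ i, ∑ k, w (i, k) * yP x i (Sum.inr k) with hYb
  have hYadd : ∀ x y, Yb (x + y) = Yb x + Yb y := by
    intro x y
    simp only [hYb, map_add, Matrix.add_apply, mul_add, Finset.sum_add_distrib]
  -- (a)
  have ha : ∀ x ∈ L, gP x = 0 → nP x = 0 → Yb x = 0 := by
    intro x hx hg hn
    have h1 := eq_block (h.le hx) hg hn
    have h2 : ff (fun p => yP x p.1 (Sum.inr p.2)) + (Matrix.of fun i y =>
        Sum.elim (fun j => yP x i (Sum.inl j)) (fun _ => 0) y) = yP x := by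
      ext a y
      rcases y with y | y <;> simp [ff]
    have h3 : cor (Matrix.of fun i y =>
        Sum.elim (fun j => yP x i (Sum.inl j)) (fun _ => 0) y) ∈ L := by
      apply cor_mem
      intro i j hij
      rcases j with j | j
      · exact h.corner_s i j
      · simp at hij
    have h4 : cor (ff (fun p => yP x p.1 (Sum.inr p.2))) ∈ L := by
      rw [← L.add_mem_iff_left h3, ← map_add, h2, cor_apply, ← h1]
      exact hx
    have h5 := hw _ h4
    rw [dotProduct, Fintype.sum_prod_type] at h5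
    exact h5
  obtain ⟨h0, hh0, hg0⟩ := h.surj 1
  have htr : (1 : Matrix (Fin 2) (Fin 2) F).trace = 2 := by simp
  -- (b)
  have hb : ∀ x ∈ L, gP x = 0 → Yb x = 0 := by
    intro x hx hg
    have h1 := h.br h0 hh0 x hx
    have h2 : gP (h0 * x - x * h0 + x) = 0 := by
      rw [map_add, gP_bracket (h.le hh0) (h.le hx), hg, mul_zero, zero_mul, sub_zero, add_zero]
    have h3 : nP (h0 * x - x * h0 + x) = 0 := by
      rw [map_add, nP_bracket (h.le hh0) (h.le hx), hg, hg0, Matrix.mul_zero, Matrix.mul_one,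
        zero_sub, neg_add_cancel]
    have h4 := ha _ (L.add_mem h1 hx) h2 h3
    rw [hYadd] at h4
    have h5 : Yb (h0 * x - x * h0) = -2 * Yb x := by
      simp only [hYb, Finset.mul_sum]
      refine Finset.sum_congr rfl fun i _ => Finset.sum_congr rfl fun k _ => ?_
      rw [yP_bracket (h.le hh0) (h.le hx), hg, hg0, htr, Matrix.trace_zero]
      ring
    rw [h5] at h4
    linear_combination -h4
  -- (c)
  have hc : (Matrix.of fun i k => w (i, k)) = (0 : Matrix (Fin r) (Fin t) F) := by
    apply h.logs _ (Yb h0 / 2)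
    intro x hx
    have h1 := h.br x hx h0 hh0
    have h2 : gP (x * h0 - h0 * x) = 0 := by
      rw [gP_bracket (h.le hx) (h.le hh0), hg0, mul_one, one_mul, sub_self]
    have h3 := hb _ h1 h2
    have h5 : Yb (x * h0 - h0 * x) = 2 * Yb x - (gP x).trace * Yb h0 := by
      simp only [hYb, Finset.mul_sum, ← Finset.sum_sub_distrib]
      refine Finset.sum_congr rfl fun i _ => Finset.sum_congr rfl fun k _ => ?_
      rw [yP_bracket (h.le hx) (h.le hh0), hg0, htr]
      ring
    rw [h5] at h3
    have h6 : Yb x = Yb h0 / 2 * (gP x).trace := by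
      have h7 : (2 : F) ≠ 0 := two_ne_zero
      field_simp
      linear_combination h3
    rw [← h6]
    rfl
  apply hw0
  ext p
  exact congrFun (congrFun hc p.1) p.2

/-- **The criterion.** -/
theorem Good.eq (h : Good L) [CharZero F] : L = lieP F r s t := by
  classical
  apply le_antisymm h.le
  intro M hM
  obtain ⟨x, hx, hgx⟩ := h.surj (gP M)
  obtain ⟨y, hy, hgy, hny⟩ := h.n_surj (nP (M - x))
  have h1 : M - x - y ∈ lieP F r s t :=
    Submodule.sub_mem _ (Submodule.sub_mem _ hM (h.le hx)) (h.le hy)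
  have h2 := eq_block h1 (by rw [map_sub, map_sub, hgx, hgy, sub_self, sub_zero])
    (by rw [map_sub, hny, sub_self])
  have h3 : cor (yP (M - x - y)) ∈ L := by
    apply cor_mem
    intro i j _
    rcases j with j | j
    · exact h.corner_s i j
    · exact h.corner_t i j
  rw [cor_apply, ← h2] at h3
  have h4 := L.add_mem (L.add_mem h3 hy) hx
  have h5 : M - x - y + y + x = M := by abel
  rwa [h5] at h4

end Pool.Agent.Q50.EM
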