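import Pool.Agent.Q50.EM.Grp
import Pool.Agent.Q50.EM.Drm3
import Pool.Agent.Q50.LR.Main
import Pool.Agent.Q75.EM.J1
import Pool.Agent.Q75.EM.J5

/-!
# The abstract theorem
-/

open Matrix

namespace Pool.Agent.Q50.EM

set_option maxHeartbeats 4000000
set_option synthInstance.maxHeartbeats 400000

open Pool.Agent.Q50.LR

section transfer

variable {K : Type} [Field K] [Algebra K ℂ] {I : Type} [Fintype I] [DecidableEq I] {n : ℕ}
  (e : I ≃ Fin n)

/-- renumbering -/
noncomputable def rn (F : Type) [Field F] : GL I F ≃* GL (Fin n) F :=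
  Units.mapEquiv (Matrix.reindexAlgEquiv F F e).toMulEquiv

theorem rn_coe (F : Type) [Field F] (g : GL I F) :
    ((rn e F g : GL (Fin n) F) : Matrix (Fin n) (Fin n) F) = (g : Matrix I I F).reindex e e := rfl

theorem rn_symm_coe (F : Type) [Field F] (g : GL (Fin n) F) (i j : I) :
    (((rn e F).symm g : GL I F) : Matrix I I F) i j =
      (g : Matrix (Fin n) (Fin n) F) (e i) (e j) := rfl

theorem alg_transfer {H : Subgroup (GL I ℂ)} (hH : IsAlgGroup K H) :
    IsAlgebraicGroup K (H.map (rn e ℂ).toMonoidHom) := by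
  obtain ⟨S, hS⟩ := hH
  refine ⟨(MvPolynomial.rename (Prod.map e e)) '' S, fun g => ?_⟩
  have h1 : g ∈ H.map (rn e ℂ).toMonoidHom ↔ (rn e ℂ).symm g ∈ H := by
    rw [Subgroup.mem_map]
    constructor
    · rintro ⟨x, hx, rfl⟩
      have : (rn e ℂ).symm ((rn e ℂ).toMonoidHom x) = x := (rn e ℂ).symm_apply_apply x
      rwa [this]
    · intro h
      exact ⟨_, h, (rn e ℂ).apply_symm_apply g⟩
  rw [h1, hS]
  constructor
  · rintro h _ ⟨f, hf, rfl⟩
    rw [MvPolynomial.aeval_rename]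
    exact h f hf
  · intro h f hf
    have := h _ ⟨f, hf, rfl⟩
    rw [MvPolynomial.aeval_rename] at this
    exact this

theorem tor_transfer {H : Subgroup (GL I ℂ)} {P : Matrix I I ℂ} (hP : OnTor K H P) :
    ∃ Q : GL (Fin n) ℂ, OnTorsor K (H.map (rn e ℂ).toMonoidHom) Q ∧
      (Q : Matrix (Fin n) (Fin n) ℂ) = P.reindex e e := by
  obtain ⟨h, hh, A, rfl⟩ := hP
  refine ⟨rn e ℂ h * (rn e K A).map (algebraMap K ℂ), ⟨rn e ℂ h, ⟨h, hh, rfl⟩, rn e K A, rfl⟩, ?_⟩
  rw [Units.val_mul, rn_coe]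
  simp only [Matrix.reindex_apply, ← Matrix.submatrix_mul_equiv _ _ _ e.symm]
  rfl

end transfer

variable {K : Type} [Field K] [Algebra K ℂ] [IsAlgClosed K] {r s t : ℕ}

/-- **The abstract theorem.** -/
theorem motGroup_le (D : Dat r s t) (hT : Tr K D) (H : Subgroup (GL (Ix r s t) ℂ))
    (hH : IsAlgGroup K H) (hP : OnTor K H D.per) : motGroup r s t ≤ H := by
  classical
  let e : Ix r s t ≃ Fin (Fintype.card (Ix r s t)) := Fintype.equivFin _
  have hH' := alg_transfer e hH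
  obtain ⟨Q, hQ, hQD⟩ := tor_transfer e hP
  have hLL := LL_eq D hT hH' hQ hQD Pool.Agent.Q75.EM.j1
  have hC : ∀ M ∈ lieP ℂ r s t, M.reindex e e ∈ LC (H.map (rn e ℂ).toMonoidHom) := by
    intro M hM
    rw [← ext_LK hH', mem_ext]
    intro ν
    have h1 : M.map ν ∈ LL K e (H.map (rn e ℂ).toMonoidHom) := by
      rw [hLL]
      exact map_mem_lieP ν hM
    exact h1.2
  rintro M ⟨g, X, Y, Z, hM⟩
  have hdet : g.det ≠ 0 := by
    intro h0
    have h1 : (M : Matrix (Ix r s t) (Ix r s t) ℂ).det ≠ 0 := by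
      have := M.isUnit.map (Matrix.detMonoidHom (n := Ix r s t) (R := ℂ))
      exact this.ne_zero
    rw [hM, det_block, h0, zero_mul] at h1
    exact h1 rfl
  obtain ⟨h, ⟨x, hx, hxh⟩, h2⟩ := Pool.Agent.Q75.EM.j5 K r s t _ e _ hH' hC g hdet X Y Z
  have h3 : x = M := by
    apply (rn e ℂ).injective
    have h4 : rn e ℂ x = h := hxh
    rw [h4]
    apply Units.ext
    rw [h2, rn_coe, hM]
    rfl
  rw [← h3]
  exact hx

end Pool.Agent.Q50.EM
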